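import Pool.Agent.Lib.MP_01886a_al.Defs

namespace Pool.Agent.ConeEdge

open MvPolynomial

section Signs
variable {n : ℕ}

lemma ksign_insert {t u : Fin n} {T : Finset (Fin n)} (hu : u ∉ T) :
    ksign t (insert u T) = (if u < t then -1 else 1) * ksign t T := by
  unfold ksign
  rw [Finset.filter_insert]
  split_ifs with h
  · rw [Finset.card_insert_of_notMem, pow_succ]
    · ring
    · intro h'
      exact hu (Finset.mem_filter.mp h').1
  · ring

lemma ksign_sq (t : Fin n) (T : Finset (Fin n)) : ksign t T * ksign t T = 1 := by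
  unfold ksign
  rw [← pow_add, ← two_mul, pow_mul]
  norm_num

lemma ksign_ne (t : Fin n) (T : Finset (Fin n)) : ksign t T = 1 ∨ ksign t T = -1 := by
  unfold ksign
  exact neg_one_pow_eq_or ℤ _

lemma ksign_swap {t u : Fin n} {T : Finset (Fin n)} (ht : t ∉ T) (hu : u ∉ T) (htu : t ≠ u) :
    ksign t T * ksign u (insert t T) + ksign u T * ksign t (insert u T) = 0 := by
  rw [ksign_insert ht, ksign_insert hu]
  rcases lt_or_gt_of_ne htu with h | h
  · rw [if_pos h, if_neg (not_lt.mpr h.le)]; ring
  · rw [if_neg (not_lt.mpr h.le), if_pos h]; ring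

end Signs

section Chains
variable (R : Type*) [CommRing R] (n : ℕ)

/-- the simplicial boundary on all functions on subsets -/
def bd : (Finset (Fin n) → R) →ₗ[R] (Finset (Fin n) → R) where
  toFun c T := ∑ t ∈ Tᶜ, (ksign t T : R) * c (insert t T)
  map_add' f g := by
    funext T
    simp only [Pi.add_apply, mul_add, Finset.sum_add_distrib]
  map_smul' c f := by
    funext T
    simp only [Pi.smul_apply, RingHom.id_apply, smul_eq_mul, mul_left_comm, Finset.mul_sum]

lemma bd_apply (c : Finset (Fin n) → R) (T : Finset (Fin n)) :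
    bd R n c T = ∑ t ∈ Tᶜ, (ksign t T : R) * c (insert t T) := rfl

/-- double sum vanishing -/
lemma double_sum_zero {M : Type*} [AddCommGroup M] (T : Finset (Fin n))
    (c : Finset (Fin n) → M) :
    ∑ t ∈ Tᶜ, ksign t T • (∑ u ∈ (insert t T)ᶜ, ksign u (insert t T) • c (insert u (insert t T)))
      = 0 := by
  have h1 : ∀ t ∈ Tᶜ, ksign t T • (∑ u ∈ (insert t T)ᶜ,
      ksign u (insert t T) • c (insert u (insert t T)))
      = ∑ u ∈ Tᶜ, (if u = t then 0 else
        (ksign t T * ksign u (insert t T)) • c (insert u (insert t T))) := by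
    intro t ht
    have h2 : (insert t T)ᶜ = Tᶜ.erase t := by
      ext x
      simp only [Finset.mem_compl, Finset.mem_insert, Finset.mem_erase, not_or]
    rw [h2, Finset.smul_sum, ← Finset.sum_erase_add Tᶜ _ ht, if_pos rfl, add_zero]
    refine Finset.sum_congr rfl fun u hu => ?_
    rw [if_neg (Finset.ne_of_mem_erase hu), mul_smul]
  rw [Finset.sum_congr rfl h1, ← Finset.sum_product']
  apply Finset.sum_involution (fun p _ => (p.2, p.1))
  · intro p hp
    rw [Finset.mem_product, Finset.mem_compl, Finset.mem_compl] at hp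
    by_cases h : p.2 = p.1
    · rw [if_pos h, if_pos h.symm, add_zero]
    · rw [if_neg h, if_neg (Ne.symm h), Finset.insert_comm p.1 p.2, ← add_smul,
        ksign_swap hp.1 hp.2 (Ne.symm h), zero_smul]
  · intro p hp hne heq
    apply hne
    rw [if_pos]
    exact congrArg Prod.fst heq
  · intro p hp
    rw [Finset.mem_product] at hp ⊢
    exact ⟨hp.2, hp.1⟩
  · intro p hp
    rfl

lemma bd_bd (c : Finset (Fin n) → R) : bd R n (bd R n c) = 0 := by
  funext T
  have := double_sum_zero n T c
  simp only [bd_apply, Pi.zero_apply]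
  simpa only [zsmul_eq_mul] using this

/-- chains of a family of subsets in degree `l` -/
def chains (Γ : Set (Finset (Fin n))) (l : ℕ) : Submodule R (Finset (Fin n) → R) where
  carrier := {c | ∀ T, c T ≠ 0 → T ∈ Γ ∧ T.card = l}
  zero_mem' := fun T h => absurd rfl h
  add_mem' := by
    intro c d hc hd T h
    rw [Pi.add_apply] at h
    by_cases h' : c T = 0
    · rw [h', zero_add] at h
      exact hd T h
    · exact hc T h'
  smul_mem' := by
    intro r c hc T h
    rw [Pi.smul_apply, smul_eq_mul] at h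
    exact hc T (right_ne_zero_of_mul h)

variable {R n}

lemma mem_chains {Γ : Set (Finset (Fin n))} {l : ℕ} {c : Finset (Fin n) → R} :
    c ∈ chains R n Γ l ↔ ∀ T, c T ≠ 0 → T ∈ Γ ∧ T.card = l := Iff.rfl

lemma chains_zero_of {Γ : Set (Finset (Fin n))} {l : ℕ} {c : Finset (Fin n) → R}
    (hc : c ∈ chains R n Γ l) {T : Finset (Fin n)} (h : ¬ (T ∈ Γ ∧ T.card = l)) : c T = 0 := by
  by_contra h'
  exact h (hc T h')

lemma bd_mem_chains {Γ : Set (Finset (Fin n))} (hΓ : ∀ S T : Finset (Fin n), S ⊆ T → T ∈ Γ → S ∈ Γ)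
    {l : ℕ} {c : Finset (Fin n) → R} (hc : c ∈ chains R n Γ (l + 1)) :
    bd R n c ∈ chains R n Γ l := by
  intro T hT
  rw [bd_apply] at hT
  obtain ⟨t, ht, hne⟩ := Finset.exists_ne_zero_of_sum_ne_zero hT
  obtain ⟨h1, h2⟩ := hc _ (right_ne_zero_of_mul hne)
  rw [Finset.mem_compl] at ht
  rw [Finset.card_insert_of_notMem ht] at h2
  exact ⟨hΓ _ _ (Finset.subset_insert t T) h1, by omega⟩

lemma bd_eq_zero_of_chains_zero {Γ : Set (Finset (Fin n))}
    {c : Finset (Fin n) → R} (hc : c ∈ chains R n Γ 0) :
    bd R n c = 0 := by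
  funext T
  rw [bd_apply, Pi.zero_apply]
  apply Finset.sum_eq_zero
  intro t ht
  rw [chains_zero_of hc, mul_zero]
  intro h
  have := h.2
  rw [Finset.card_eq_zero] at this
  exact Finset.insert_ne_empty _ _ this

end Chains

section Rank
variable (k : Type*) [Field k] (n : ℕ)

/-- dimension of the cycles -/
noncomputable def cyc (Γ : Set (Finset (Fin n))) (l : ℕ) : ℕ :=
  Module.finrank k ↥(LinearMap.ker (bd k n) ⊓ chains k n Γ l)

/-- number of faces -/
noncomputable def faces (n : ℕ) (Γ : Set (Finset (Fin n))) (l : ℕ) : ℕ :=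
  Nat.card {T : Finset (Fin n) // T ∈ Γ ∧ T.card = l}

lemma chains_eq_span (Γ : Set (Finset (Fin n))) (l : ℕ) :
    chains k n Γ l = Submodule.span k (Set.range
      (fun T : {T : Finset (Fin n) // T ∈ Γ ∧ T.card = l} => (Pi.single T.1 1 : Finset (Fin n) → k))) := by
  apply le_antisymm
  · intro c hc
    have h1 : c = ∑ T : Finset (Fin n), c T • (Pi.single T 1 : Finset (Fin n) → k) := by
      funext S
      rw [Finset.sum_apply]
      simp only [Pi.smul_apply, Pi.single_apply, smul_eq_mul, mul_ite, mul_one, mul_zero]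
      rw [Finset.sum_ite_eq, if_pos (Finset.mem_univ _)]
    rw [h1]
    apply Submodule.sum_mem
    intro T _
    by_cases h : c T = 0
    · rw [h, zero_smul]; exact Submodule.zero_mem _
    · apply Submodule.smul_mem
      apply Submodule.subset_span
      exact ⟨⟨T, hc T h⟩, rfl⟩
  · rw [Submodule.span_le]
    rintro _ ⟨T, rfl⟩ S hS
    have : S = T.1 := by
      by_contra h
      apply hS
      exact Pi.single_eq_of_ne h 1
    rw [this]
    exact T.2

lemma finrank_chains (Γ : Set (Finset (Fin n))) (l : ℕ) :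
    Module.finrank k (chains k n Γ l) = faces n Γ l := by
  classical
  rw [chains_eq_span]
  unfold faces
  have : Fintype {T : Finset (Fin n) // T ∈ Γ ∧ T.card = l} := Fintype.ofFinite _
  rw [Nat.card_eq_fintype_card]
  apply finrank_span_eq_card
  have h : LinearIndependent k (fun T : Finset (Fin n) => (Pi.single T 1 : Finset (Fin n) → k)) := by
    have := (Pi.basisFun k (Finset (Fin n))).linearIndependent
    convert this using 1
    funext T
    rw [Pi.basisFun_apply]
  exact h.comp (fun T : {T : Finset (Fin n) // T ∈ Γ ∧ T.card = l} => T.1) Subtype.val_injective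

/-- rank-nullity for the boundary on chains -/
lemma rank_add_cyc (Γ : Set (Finset (Fin n))) (l : ℕ) :
    Module.finrank k ((chains k n Γ l).map (bd k n)) + cyc k n Γ l = faces n Γ l := by
  rw [← finrank_chains k n Γ l]
  have h := LinearMap.finrank_range_add_finrank_ker ((bd k n).domRestrict (chains k n Γ l))
  rw [LinearMap.range_domRestrict] at h
  rw [← h]
  congr 1
  unfold cyc
  have h2 : (LinearMap.ker ((bd k n).domRestrict (chains k n Γ l))).map (chains k n Γ l).subtype
      = LinearMap.ker (bd k n) ⊓ chains k n Γ l := by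
    ext c
    simp only [Submodule.mem_map, LinearMap.mem_ker, Submodule.mem_inf]
    constructor
    · rintro ⟨x, hx, rfl⟩
      exact ⟨hx, x.2⟩
    · rintro ⟨h1, h2⟩
      exact ⟨⟨c, h2⟩, h1, rfl⟩
  rw [← h2, LinearEquiv.finrank_eq (Submodule.equivMapOfInjective _ (Submodule.injective_subtype _) _)]

/-- integer vectors independent over some field are independent over the rationals -/
lemma indep_of_indep {ι X : Type*} (v : ι → X → ℤ)
    (h : LinearIndependent k (fun i => (fun x => (v i x : k)) : ι → X → k)) :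
    LinearIndependent ℚ (fun i => (fun x => (v i x : ℚ)) : ι → X → ℚ) := by
  classical
  rw [← LinearIndependent.iff_fractionRing ℤ ℚ, linearIndependent_iff']
  intro s g hg
  by_contra hcon
  push Not at hcon
  obtain ⟨i₀, hi₀, hne⟩ := hcon
  have hs : s.Nonempty := ⟨i₀, hi₀⟩
  obtain ⟨g', hg', hgcd⟩ := Finset.extract_gcd g hs
  have hd : s.gcd g ≠ 0 := by
    intro h0
    rw [Finset.gcd_eq_zero_iff] at h0
    exact hne (h0 i₀ hi₀)
  have h1 : ∀ x, ∑ i ∈ s, g' i * v i x = 0 := by
    intro x
    have h2 := congrFun hg x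
    rw [Finset.sum_apply, Pi.zero_apply] at h2
    have h3 : ∑ i ∈ s, g i * v i x = 0 := by
      have : ((∑ i ∈ s, g i * v i x : ℤ) : ℚ) = 0 := by
        rw [← h2]
        push_cast
        refine Finset.sum_congr rfl fun i _ => ?_
        rw [Pi.smul_apply, zsmul_eq_mul]
      exact_mod_cast this
    have h4 : s.gcd g * ∑ i ∈ s, g' i * v i x = 0 := by
      rw [Finset.mul_sum, ← h3]
      refine Finset.sum_congr rfl fun i hi => ?_
      rw [hg' i hi]; ring
    exact (mul_eq_zero.mp h4).resolve_left hd
  rw [linearIndependent_iff'] at h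
  have h5 := h s (fun i => (g' i : k)) (by
    funext x
    rw [Finset.sum_apply, Pi.zero_apply]
    simp only [Pi.smul_apply, smul_eq_mul]
    have := congrArg (Int.cast : ℤ → k) (h1 x)
    push_cast at this
    exact this)
  -- all g' vanish in k : contradiction with gcd one
  have h6 : (ringChar k : ℤ) ∣ s.gcd g' := by
    apply Finset.dvd_gcd
    intro i hi
    have h7 := h5 i hi
    exact (CharP.intCast_eq_zero_iff k (ringChar k) (g' i)).mp h7
  rw [hgcd] at h6
  have h8 : ringChar k = 1 := by
    have := Int.isUnit_iff.mp (isUnit_of_dvd_one h6)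
    omega
  have h9 : ((1:ℕ) : k) = 0 := by
    rw [← h8]
    exact ringChar.Nat.cast_ringChar
  simp at h9

/-- integer boundary vectors -/
def ivec (Γ : Set (Finset (Fin n))) (l : ℕ)
    (T : {T : Finset (Fin n) // T ∈ Γ ∧ T.card = l}) : Finset (Fin n) → ℤ :=
  bd ℤ n (Pi.single T.1 1)

lemma ivec_cast (Γ : Set (Finset (Fin n))) (l : ℕ) :
    (fun T : {T : Finset (Fin n) // T ∈ Γ ∧ T.card = l} =>
      (fun S => (ivec n Γ l T S : k))) = fun T => bd k n (Pi.single T.1 1) := by
  classical
  funext T S
  simp only [ivec, bd_apply]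
  push_cast
  refine Finset.sum_congr rfl fun t _ => ?_
  congr 1
  rw [Pi.single_apply, Pi.single_apply]
  split_ifs <;> simp

lemma map_chains_span (Γ : Set (Finset (Fin n))) (l : ℕ) :
    (chains k n Γ l).map (bd k n) = Submodule.span k
      (Set.range (fun T : {T : Finset (Fin n) // T ∈ Γ ∧ T.card = l} =>
        bd k n (Pi.single T.1 1))) := by
  rw [chains_eq_span, Submodule.map_span, ← Set.range_comp]
  rfl

lemma rank_le (Γ : Set (Finset (Fin n))) (l : ℕ) :
    Module.finrank k ((chains k n Γ l).map (bd k n))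
      ≤ Module.finrank ℚ ((chains ℚ n Γ l).map (bd ℚ n)) := by
  classical
  obtain ⟨κ, a, ha, hs, hli⟩ := exists_linearIndependent' k
    (fun T : {T : Finset (Fin n) // T ∈ Γ ∧ T.card = l} => bd k n (Pi.single T.1 1))
  have : Finite κ := Finite.of_injective a ha
  have : Fintype κ := Fintype.ofFinite κ
  rw [map_chains_span k n, ← hs, finrank_span_eq_card hli]
  have hli2 : LinearIndependent ℚ (fun i : κ => bd ℚ n (Pi.single (a i).1 1)) := by
    have h1 := indep_of_indep k (fun i : κ => ivec n Γ l (a i)) (by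
      have h2 : (fun i : κ => (fun S => (ivec n Γ l (a i) S : k))) =
          (fun T : {T : Finset (Fin n) // T ∈ Γ ∧ T.card = l} => bd k n (Pi.single T.1 1)) ∘ a := by
        funext i
        exact congrFun (ivec_cast k n Γ l) (a i)
      rw [h2]; exact hli)
    have h3 : (fun i : κ => (fun S => (ivec n Γ l (a i) S : ℚ))) =
          fun i : κ => bd ℚ n (Pi.single (a i).1 1) := by
      funext i
      exact congrFun (ivec_cast ℚ n Γ l) (a i)
    rw [← h3]; exact h1
  have hmem : ∀ i : κ, bd ℚ n (Pi.single (a i).1 1) ∈ (chains ℚ n Γ l).map (bd ℚ n) := by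
    intro i
    rw [map_chains_span ℚ n]
    exact Submodule.subset_span ⟨a i, rfl⟩
  have hli3 : LinearIndependent ℚ (fun i : κ =>
      (⟨bd ℚ n (Pi.single (a i).1 1), hmem i⟩ : (chains ℚ n Γ l).map (bd ℚ n))) := by
    apply LinearIndependent.of_comp ((chains ℚ n Γ l).map (bd ℚ n)).subtype
    exact hli2
  exact hli3.fintype_card_le_finrank

/-- semicontinuity of the number of cycles -/
lemma cyc_mono (Γ : Set (Finset (Fin n))) (l : ℕ) : cyc ℚ n Γ l ≤ cyc k n Γ l := by
  have h1 := rank_add_cyc k n Γ l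
  have h2 := rank_add_cyc ℚ n Γ l
  have h3 := rank_le k n Γ l
  omega

end Rank

end Pool.Agent.ConeEdge
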