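import Mathlib

/-! Graded Betti numbers of ideals of a polynomial ring through the Koszul complex, edge ideals of
finite simple graphs, and the cone over a graph. -/

namespace Pool.Agent.ConeEdge

open MvPolynomial

/-- The Koszul sign `(-1) ^ #{x ∈ T : x < t}`. -/
def ksign {n : ℕ} (t : Fin n) (T : Finset (Fin n)) : ℤ :=
  (-1) ^ (T.filter (fun x => x < t)).card

/-- The Koszul differential of `S = k[x_1,…,x_n]` on `Λ(k^n) ⊗ S`. An element of `Λ^i(k^n) ⊗ S` is
written as a family `f` of polynomials indexed by the `i`-element subsets `T` of the variables (the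
coefficient of `e_T`), and `(d f)(T) = ∑_{t ∉ T} (-1)^{#{x ∈ T : x < t}} x_t f(T ∪ {t})`. -/
noncomputable def koszulD (k : Type*) [Field k] (n : ℕ) :
    (Finset (Fin n) → MvPolynomial (Fin n) k) →ₗ[k] (Finset (Fin n) → MvPolynomial (Fin n) k) where
  toFun f T := ∑ t ∈ Tᶜ, (ksign t T : MvPolynomial (Fin n) k) * (X t * f (insert t T))
  map_add' f g := by
    funext T
    simp only [Pi.add_apply, mul_add, Finset.sum_add_distrib]
  map_smul' c f := by
    funext T
    simp only [Pi.smul_apply, RingHom.id_apply, Finset.smul_sum, mul_smul_comm]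

/-- The part of homological degree `i` and internal degree `j` of the Koszul complex with
coefficients in the ideal `I`: families of elements of `I`, supported on `i`-element subsets, all of
whose monomials have degree `j - i` (so the family is zero when `i > j`). -/
def strand {k : Type*} [Field k] {n : ℕ} (I : Ideal (MvPolynomial (Fin n) k)) (i j : ℕ) :
    Submodule k (Finset (Fin n) → MvPolynomial (Fin n) k) where
  carrier := {f | ∀ T, f T ∈ I ∧ (T.card ≠ i → f T = 0) ∧
    ∀ m : Fin n →₀ ℕ, coeff m (f T) ≠ 0 → m.degree + i = j}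
  zero_mem' := fun T => ⟨I.zero_mem, fun _ => rfl, fun m hm => absurd (by simp) hm⟩
  add_mem' := by
    intro f g hf hg T
    refine ⟨I.add_mem (hf T).1 (hg T).1, fun h => ?_, fun m hm => ?_⟩
    · rw [Pi.add_apply, (hf T).2.1 h, (hg T).2.1 h, add_zero]
    · rw [Pi.add_apply, coeff_add] at hm
      by_cases h : coeff m (f T) = 0
      · rw [h, zero_add] at hm
        exact (hg T).2.2 m hm
      · exact (hf T).2.2 m h
  smul_mem' := by
    intro c f hf T
    refine ⟨?_, fun h => ?_, fun m hm => ?_⟩
    · rw [Pi.smul_apply, smul_eq_C_mul]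
      exact I.mul_mem_left _ (hf T).1
    · rw [Pi.smul_apply, (hf T).2.1 h, smul_zero]
    · rw [Pi.smul_apply, coeff_smul] at hm
      exact (hf T).2.2 m (right_ne_zero_of_mul hm)

/-- The graded Betti number `β_{i,j}(I) = dim_k Tor_i^S(I,k)_j`, computed as the dimension of the
degree `j` part of the `i`-th Koszul homology of `I`. -/
noncomputable def betti {k : Type*} [Field k] {n : ℕ} (I : Ideal (MvPolynomial (Fin n) k))
    (i j : ℕ) : ℕ :=
  Module.finrank k
    (↥(LinearMap.ker (koszulD k n) ⊓ strand I i j) ⧸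
      ((strand I (i + 1) j).map (koszulD k n)).submoduleOf
        (LinearMap.ker (koszulD k n) ⊓ strand I i j))

/-- The edge ideal of a finite simple graph. -/
noncomputable def edgeIdeal (k : Type*) [Field k] {n : ℕ} (G : SimpleGraph (Fin n)) :
    Ideal (MvPolynomial (Fin n) k) :=
  Ideal.span {f | ∃ u v, G.Adj u v ∧ f = X u * X v}

/-- The cone over a graph on `Fin n`: the new vertex is `Fin.last n`, joined to all others. -/
def cone {n : ℕ} (G : SimpleGraph (Fin n)) : SimpleGraph (Fin (n + 1)) where
  Adj u v := (∃ a b, G.Adj a b ∧ u = Fin.castSucc a ∧ v = Fin.castSucc b) ∨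
    (u = Fin.last n ∧ v ≠ Fin.last n) ∨ (v = Fin.last n ∧ u ≠ Fin.last n)
  symm := by
    constructor
    rintro u v (⟨a, b, h, rfl, rfl⟩ | h | h)
    · exact Or.inl ⟨b, a, h.symm, rfl, rfl⟩
    · exact Or.inr (Or.inr h)
    · exact Or.inr (Or.inl h)
  loopless := by
    constructor
    rintro u (⟨a, b, h, rfl, h2⟩ | h | h)
    · exact h.ne (Fin.castSucc_injective n h2)
    · exact h.2 h.1
    · exact h.2 h.1

/-- A family of ideals, one over each field, has Betti numbers that depend on the field. -/
def FieldDependent {n : ℕ} (I : ∀ (k : Type) [Field k], Ideal (MvPolynomial (Fin n) k)) : Prop :=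
  ∃ (k k' : Type) (_ : Field k) (_ : Field k') (i j : ℕ), betti (I k) i j ≠ betti (I k') i j

end Pool.Agent.ConeEdge
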