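import Pool.Agent.Lib.MP_01886a_al.Split

namespace Pool.Agent.ConeEdge

open MvPolynomial

section Linear
variable (k : Type*) [Field k] {n : ℕ}

/-- codimension one chains from a function on vertices -/
def wfun (s : Finset (Fin n)) : (Fin n → k) →ₗ[k] (Finset (Fin n) → k) where
  toFun h T := ∑ v ∈ s, if T = s.erase v then (ksign v s : k) * h v else 0
  map_add' f g := by
    funext T
    simp only [Pi.add_apply]
    rw [← Finset.sum_add_distrib]
    refine Finset.sum_congr rfl fun v _ => ?_
    split_ifs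
    · ring
    · ring
  map_smul' c f := by
    funext T
    simp only [Pi.smul_apply, RingHom.id_apply, smul_eq_mul, Finset.mul_sum]
    refine Finset.sum_congr rfl fun v _ => ?_
    split_ifs
    · ring
    · ring

lemma wfun_erase {s : Finset (Fin n)} {v : Fin n} (hv : v ∈ s) (h : Fin n → k) :
    wfun k s h (s.erase v) = (ksign v s : k) * h v := by
  have : wfun k s h (s.erase v)
    = ∑ u ∈ s, if s.erase v = s.erase u then (ksign u s : k) * h u else 0 := rfl
  rw [this, Finset.sum_eq_single v]
  · rw [if_pos rfl]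
  · intro u hu hne
    rw [if_neg]
    intro heq
    have h1 : v ∉ s.erase v := Finset.notMem_erase v s
    rw [heq] at h1
    exact h1 (Finset.mem_erase.mpr ⟨Ne.symm hne, hv⟩)
  · intro h
    exact absurd hv h

lemma wfun_other {s T : Finset (Fin n)} (hT : ∀ v ∈ s, T ≠ s.erase v) (h : Fin n → k) :
    wfun k s h T = 0 := by
  have : wfun k s h T
    = ∑ u ∈ s, if T = s.erase u then (ksign u s : k) * h u else 0 := rfl
  rw [this]
  apply Finset.sum_eq_zero
  intro v hv
  rw [if_neg (hT v hv)]

lemma bd_wfun_lt {s : Finset (Fin n)} {u v : Fin n} (hu : u ∈ s) (hv : v ∈ s) (huv : u < v)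
    (h : Fin n → k) :
    bd k n (wfun k s h) ((s.erase u).erase v)
      = (ksign u s : k) * (ksign v s : k) * (h v - h u) := by
  classical
  have hne : u ≠ v := huv.ne
  set S := (s.erase u).erase v with hS
  have huS : u ∉ S := by
    rw [hS]; simp
  have hvS : v ∉ S := by
    rw [hS]; simp
  have h1 : insert u S = s.erase v := by
    rw [hS, Finset.erase_right_comm, Finset.insert_erase]
    exact Finset.mem_erase.mpr ⟨hne, hu⟩
  have h2 : insert v S = s.erase u := by
    rw [hS, Finset.insert_erase]
    exact Finset.mem_erase.mpr ⟨hne.symm, hv⟩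
  have h3 : s = insert u (insert v S) := by
    rw [h2, Finset.insert_erase hu]
  have hu2 : u ∉ insert v S := by
    rw [Finset.mem_insert, not_or]; exact ⟨hne, huS⟩
  have hv2 : v ∉ insert u S := by
    rw [Finset.mem_insert, not_or]; exact ⟨hne.symm, hvS⟩
  have hsu : ksign u s = ksign u S := by
    rw [h3, ksign_insert hu2, if_neg (lt_irrefl u), one_mul, ksign_insert hvS,
      if_neg (not_lt.mpr huv.le), one_mul]
  have hsv : ksign v s = - ksign v S := by
    rw [h3, ksign_insert hu2, if_pos huv, ksign_insert hvS, if_neg (lt_irrefl v), one_mul]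
    ring
  rw [bd_apply]
  have hsub : ({u, v} : Finset (Fin n)) ⊆ Sᶜ := by
    intro x hx
    rw [Finset.mem_compl]
    rw [Finset.mem_insert, Finset.mem_singleton] at hx
    rcases hx with rfl | rfl
    · exact huS
    · exact hvS
  rw [← Finset.sum_subset hsub]
  · rw [Finset.sum_pair hne, h1, h2, wfun_erase k hv, wfun_erase k hu, hsu, hsv]
    push_cast
    ring
  · intro t ht ht2
    rw [wfun_other, mul_zero]
    intro w hw heq
    have h5 : t ∈ s.erase w := by
      rw [← heq]; exact Finset.mem_insert_self _ _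
    have h6 := (Finset.mem_erase.mp h5).2
    rw [h3, Finset.mem_insert, Finset.mem_insert] at h6
    rw [Finset.mem_compl] at ht
    rw [Finset.mem_insert, Finset.mem_singleton, not_or] at ht2
    rcases h6 with h7 | h7 | h7
    · exact ht2.1 h7
    · exact ht2.2 h7
    · exact ht h7

lemma bd_wfun_iff {s : Finset (Fin n)} {u v : Fin n} (hu : u ∈ s) (hv : v ∈ s) (huv : u ≠ v)
    (h : Fin n → k) :
    bd k n (wfun k s h) ((s.erase u).erase v) = 0 ↔ h u = h v := by
  have hsgn : ∀ (x : Fin n) (T : Finset (Fin n)), (ksign x T : k) ≠ 0 := by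
    intro x T
    rcases ksign_ne x T with h | h <;> rw [h] <;> simp
  rcases lt_or_gt_of_ne huv with hlt | hlt
  · rw [bd_wfun_lt k hu hv hlt, mul_eq_zero, mul_eq_zero, sub_eq_zero]
    constructor
    · rintro ((h1 | h1) | h1)
      · exact absurd h1 (hsgn _ _)
      · exact absurd h1 (hsgn _ _)
      · exact h1.symm
    · intro h1
      exact Or.inr h1.symm
  · rw [Finset.erase_right_comm, bd_wfun_lt k hv hu hlt, mul_eq_zero, mul_eq_zero, sub_eq_zero]
    constructor
    · rintro ((h1 | h1) | h1)
      · exact absurd h1 (hsgn _ _)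
      · exact absurd h1 (hsgn _ _)
      · exact h1
    · intro h1
      exact Or.inr h1

lemma erase_of_card {s T : Finset (Fin n)} {N : ℕ} (hs : s.card = N + 1) (hT : T ⊆ s)
    (hTc : T.card = N) : ∃ v ∈ s, T = s.erase v := by
  have h1 : (s \ T).card = 1 := by
    rw [Finset.card_sdiff_of_subset hT]; omega
  obtain ⟨v, hv⟩ := Finset.card_eq_one.mp h1
  have hv' : v ∈ s \ T := by rw [hv]; exact Finset.mem_singleton_self v
  rw [Finset.mem_sdiff] at hv'
  refine ⟨v, hv'.1, ?_⟩
  apply Finset.eq_of_subset_of_card_le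
  · intro x hx
    refine Finset.mem_erase.mpr ⟨?_, hT hx⟩
    intro h
    rw [h] at hx
    exact hv'.2 hx
  · rw [Finset.card_erase_of_mem hv'.1]; omega

lemma erase2_of_card {s T : Finset (Fin n)} {N : ℕ} (hs : s.card = N + 2) (hT : T ⊆ s)
    (hTc : T.card = N) : ∃ u ∈ s, ∃ v ∈ s, u ≠ v ∧ T = (s.erase u).erase v := by
  have h1 : (s \ T).card = 2 := by
    rw [Finset.card_sdiff_of_subset hT]; omega
  obtain ⟨u, v, huv, huv2⟩ := Finset.card_eq_two.mp h1
  have hu' : u ∈ s \ T := by rw [huv2]; simp
  have hv' : v ∈ s \ T := by rw [huv2]; simp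
  rw [Finset.mem_sdiff] at hv' hu'
  refine ⟨u, hu'.1, v, hv'.1, huv, ?_⟩
  apply Finset.eq_of_subset_of_card_le
  · intro x hx
    refine Finset.mem_erase.mpr ⟨?_, Finset.mem_erase.mpr ⟨?_, hT hx⟩⟩
    · intro h
      rw [h] at hx
      exact hv'.2 hx
    · intro h
      rw [h] at hx
      exact hu'.2 hx
  · rw [Finset.card_erase_of_mem (Finset.mem_erase.mpr ⟨huv.symm, hv'.1⟩),
      Finset.card_erase_of_mem hu'.1]
    omega

lemma wfun_mem {s : Finset (Fin n)} {N : ℕ} (hs : s.card = N + 1) (h : Fin n → k) :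
    wfun k s h ∈ chains k n (full s) N := by
  intro T hT
  by_contra hcon
  apply hT
  apply wfun_other
  intro v hv heq
  apply hcon
  rw [heq]
  refine ⟨Finset.erase_subset v s, ?_⟩
  rw [Finset.card_erase_of_mem hv]; omega

/-- nonadjacency inside `s` -/
def nonadj (G : SimpleGraph (Fin n)) (s : Finset (Fin n)) (u v : ↥s) : Prop :=
  u ≠ v ∧ ¬ G.Adj u.1 v.1

/-- functions constant on components of the complement graph, extended by zero -/
def comp (G : SimpleGraph (Fin n)) (s : Finset (Fin n)) :
    (Quot (nonadj G s) → k) →ₗ[k] (Fin n → k) where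
  toFun g x := if h : x ∈ s then g (Quot.mk _ ⟨x, h⟩) else 0
  map_add' f g := by
    funext x
    simp only [Pi.add_apply]
    split_ifs
    · rfl
    · rw [add_zero]
  map_smul' c f := by
    funext x
    simp only [Pi.smul_apply, RingHom.id_apply, smul_eq_mul]
    split_ifs
    · rfl
    · rw [mul_zero]

lemma comp_apply (G : SimpleGraph (Fin n)) (s : Finset (Fin n)) (g : Quot (nonadj G s) → k)
    {x : Fin n} (h : x ∈ s) : comp k G s g x = g (Quot.mk _ ⟨x, h⟩) := dif_pos h

/-- the family of the linear strand in a squarefree multidegree -/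
def Fsq (G : SimpleGraph (Fin n)) (s : Finset (Fin n)) : Set (Finset (Fin n)) :=
  {T | T ⊆ s ∧ ∃ u ∈ s, ∃ v ∈ s, G.Adj u v ∧ u ∉ T ∧ v ∉ T}

lemma finrank_sq (G : SimpleGraph (Fin n)) (s : Finset (Fin n)) {N : ℕ} (hs : s.card = N + 2) :
    cyc k n (Fsq G s) N + 1 = Nat.card (Quot (nonadj G s)) := by
  classical
  have hsne : s.Nonempty := by
    rw [← Finset.card_pos]; omega
  obtain ⟨x₀, hx₀⟩ := hsne
  set Θ : (Quot (nonadj G s) → k) →ₗ[k] (Finset (Fin n) → k) :=
    (bd k n).comp ((wfun k s).comp (comp k G s)) with hΘ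
  have hΘa : ∀ g, Θ g = bd k n (wfun k s (comp k G s g)) := fun g => rfl
  have hrange : LinearMap.range Θ = LinearMap.ker (bd k n) ⊓ chains k n (Fsq G s) N := by
    ext c
    rw [LinearMap.mem_range, Submodule.mem_inf, LinearMap.mem_ker]
    constructor
    · rintro ⟨g, rfl⟩
      rw [hΘa]
      refine ⟨bd_bd k n _, ?_⟩
      intro T hT
      have hw := wfun_mem k (N := N + 1) hs (comp k G s g)
      have h1 := bd_mem_chains (Γ := full s) (fun S T hST hT => hST.trans hT) hw
      obtain ⟨h2, h3⟩ := h1 T hT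
      obtain ⟨u, hu, v, hv, huv, rfl⟩ := erase2_of_card hs h2 h3
      refine ⟨⟨h2, ?_⟩, h3⟩
      refine ⟨u, hu, v, hv, ?_, by simp, by simp⟩
      by_contra hadj
      apply hT
      rw [bd_wfun_iff k hu hv huv, comp_apply k G s g hu, comp_apply k G s g hv]
      congr 1
      apply Quot.sound
      exact ⟨fun h => huv (congrArg Subtype.val h), hadj⟩
    · rintro ⟨hc1, hc2⟩
      have hc3 : c ∈ chains k n (full s) N := by
        intro T hT
        obtain ⟨h1, h2⟩ := hc2 T hT
        exact ⟨h1.1, h2⟩
      obtain ⟨w, hw1, hw2⟩ := exact_full ⟨x₀, hx₀⟩ hc3 hc1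
      -- recover the vertex function
      set h : Fin n → k := fun v => (ksign v s : k) * w (s.erase v) with hh
      have hwh : wfun k s h = w := by
        funext T
        by_cases hT : ∃ v ∈ s, T = s.erase v
        · obtain ⟨v, hv, rfl⟩ := hT
          rw [wfun_erase k hv, hh]
          have := ksign_sq v s
          have h2 : (ksign v s : k) * (ksign v s : k) = 1 := by
            rw [← Int.cast_mul, this, Int.cast_one]
          linear_combination w (s.erase v) * h2
        · push Not at hT
          rw [wfun_other k hT]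
          by_contra hne
          obtain ⟨h1, h2⟩ := hw1 T (Ne.symm hne)
          obtain ⟨v, hv, hvT⟩ := erase_of_card (N := N + 1) hs h1 h2
          exact hT v hv hvT
      have hconst : ∀ u v : ↥s, nonadj G s u v → h u.1 = h v.1 := by
        rintro u v ⟨h1, h2⟩
        have huv : u.1 ≠ v.1 := fun h => h1 (Subtype.ext h)
        rw [← bd_wfun_iff k u.2 v.2 huv, hwh, hw2]
        by_contra hne
        obtain ⟨⟨_, x, hx, y, hy, hxy, hx2, hy2⟩, _⟩ := hc2 _ hne
        have hx3 : x = u.1 ∨ x = v.1 := by
          by_contra hcon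
          push Not at hcon
          exact hx2 (Finset.mem_erase.mpr ⟨hcon.2, Finset.mem_erase.mpr ⟨hcon.1, hx⟩⟩)
        have hy3 : y = u.1 ∨ y = v.1 := by
          by_contra hcon
          push Not at hcon
          exact hy2 (Finset.mem_erase.mpr ⟨hcon.2, Finset.mem_erase.mpr ⟨hcon.1, hy⟩⟩)
        rcases hx3 with rfl | rfl <;> rcases hy3 with rfl | rfl
        · exact hxy.ne rfl
        · exact h2 hxy
        · exact h2 hxy.symm
        · exact hxy.ne rfl
      refine ⟨Quot.lift (fun u : ↥s => h u.1) hconst, ?_⟩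
      rw [hΘa]
      have h5 : wfun k s (comp k G s (Quot.lift (fun u : ↥s => h u.1) hconst)) = wfun k s h := by
        funext T
        have e1 : ∀ f : Fin n → k, wfun k s f T
          = ∑ v ∈ s, if T = s.erase v then (ksign v s : k) * f v else 0 := fun f => rfl
        rw [e1, e1]
        refine Finset.sum_congr rfl fun v hv => ?_
        rw [comp_apply k G s _ hv]
      rw [h5, hwh, hw2]
  have hker : LinearMap.ker Θ = Submodule.span k {(fun _ => (1 : k))} := by
    ext g
    rw [LinearMap.mem_ker, Submodule.mem_span_singleton]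
    constructor
    · intro hg
      refine ⟨g (Quot.mk _ ⟨x₀, hx₀⟩), ?_⟩
      funext q
      obtain ⟨⟨y, hy⟩, rfl⟩ := Quot.exists_rep q
      rw [Pi.smul_apply, smul_eq_mul, mul_one]
      by_cases hxy : x₀ = y
      · subst hxy; rfl
      · have h1 := (bd_wfun_iff k hx₀ hy hxy (comp k G s g)).mp (by rw [← hΘa, hg]; rfl)
        rw [comp_apply k G s g hx₀, comp_apply k G s g hy] at h1
        exact h1
    · rintro ⟨r, rfl⟩
      rw [hΘa]
      have hw := wfun_mem k (N := N + 1) hs (comp k G s (r • fun _ => (1 : k)))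
      have h1 := bd_mem_chains (Γ := full s) (fun S T hST hT => hST.trans hT) hw
      funext T
      by_contra hT
      obtain ⟨h2, h3⟩ := h1 T hT
      obtain ⟨u, hu, v, hv, huv, rfl⟩ := erase2_of_card hs h2 h3
      apply hT
      rw [Pi.zero_apply, bd_wfun_iff k hu hv huv, comp_apply k G s _ hu, comp_apply k G s _ hv]
      rfl
  have hfin : Fintype (Quot (nonadj G s)) := Fintype.ofFinite _
  have hrank := LinearMap.finrank_range_add_finrank_ker Θ
  rw [hrange, hker, finrank_span_singleton, Module.finrank_fintype_fun_eq_card] at hrank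
  · rw [Nat.card_eq_fintype_card, ← hrank]
    rfl
  · intro h
    have := congrFun h (Quot.mk _ ⟨x₀, hx₀⟩)
    simp at this

end Linear

end Pool.Agent.ConeEdge
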