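import Pool.Agent.Lib.MP_01886a_al.LinearStrand

namespace Pool.Agent.ConeEdge

open MvPolynomial

section Ideals
variable {n : ℕ}

/-- exponents of the monomials in the edge ideal -/
def PG (G : SimpleGraph (Fin n)) : Set (Fin n →₀ ℕ) :=
  {m | ∃ u v, G.Adj u v ∧ Finsupp.single u 1 + Finsupp.single v 1 ≤ m}

/-- exponents of the monomials in the square of the edge ideal -/
def PG2 (G : SimpleGraph (Fin n)) : Set (Fin n →₀ ℕ) :=
  {m | ∃ u v u' v', G.Adj u v ∧ G.Adj u' v' ∧
    (Finsupp.single u 1 + Finsupp.single v 1) + (Finsupp.single u' 1 + Finsupp.single v' 1) ≤ m}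

/-- exponents of the generators -/
def gens (G : SimpleGraph (Fin n)) : Set (Fin n →₀ ℕ) :=
  {m | ∃ u v, G.Adj u v ∧ Finsupp.single u 1 + Finsupp.single v 1 = m}

lemma edgeIdeal_eq (k : Type*) [Field k] (G : SimpleGraph (Fin n)) :
    edgeIdeal k G = Ideal.span ((fun s => (monomial s) (1 : k)) '' gens G) := by
  unfold edgeIdeal
  congr 1
  ext f
  constructor
  · rintro ⟨u, v, h, rfl⟩
    refine ⟨_, ⟨u, v, h, rfl⟩, ?_⟩
    simp only [X, monomial_mul, one_mul]
  · rintro ⟨_, ⟨u, v, h, rfl⟩, rfl⟩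
    refine ⟨u, v, h, ?_⟩
    simp only [X, monomial_mul, one_mul]

lemma isMon_edgeIdeal (k : Type*) [Field k] (G : SimpleGraph (Fin n)) :
    IsMon (edgeIdeal k G) (PG G) := by
  intro f
  rw [edgeIdeal_eq, mem_ideal_span_monomial_image]
  constructor
  · intro h m hm
    obtain ⟨s, ⟨u, v, huv, rfl⟩, hle⟩ := h m (mem_support_iff.mpr hm)
    exact ⟨u, v, huv, hle⟩
  · intro h m hm
    obtain ⟨u, v, huv, hle⟩ := h m (mem_support_iff.mp hm)
    exact ⟨_, ⟨u, v, huv, rfl⟩, hle⟩

lemma isMon_edgeIdeal_sq (k : Type*) [Field k] (G : SimpleGraph (Fin n)) :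
    IsMon (edgeIdeal k G ^ 2) (PG2 G) := by
  intro f
  have h1 : edgeIdeal k G ^ 2 = Ideal.span ((fun s => (monomial s) (1 : k)) ''
      {m | ∃ s ∈ gens G, ∃ t ∈ gens G, s + t = m}) := by
    rw [sq, edgeIdeal_eq, Ideal.span_mul_span']
    congr 1
    ext g
    rw [Set.mem_mul]
    constructor
    · rintro ⟨_, ⟨s, hs, rfl⟩, _, ⟨t, ht, rfl⟩, rfl⟩
      refine ⟨s + t, ⟨s, hs, t, ht, rfl⟩, ?_⟩
      simp only [monomial_mul, one_mul]
    · rintro ⟨_, ⟨s, hs, t, ht, rfl⟩, rfl⟩
      refine ⟨_, ⟨s, hs, rfl⟩, _, ⟨t, ht, rfl⟩, ?_⟩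
      simp only [monomial_mul, one_mul]
  rw [h1, mem_ideal_span_monomial_image]
  constructor
  · intro h m hm
    obtain ⟨s, ⟨_, ⟨u, v, huv, rfl⟩, _, ⟨u', v', huv', rfl⟩, rfl⟩, hle⟩ :=
      h m (mem_support_iff.mpr hm)
    exact ⟨u, v, u', v', huv, huv', hle⟩
  · intro h m hm
    obtain ⟨u, v, u', v', huv, huv', hle⟩ := h m (mem_support_iff.mp hm)
    exact ⟨_, ⟨_, ⟨u, v, huv, rfl⟩, _, ⟨u', v', huv', rfl⟩, rfl⟩, hle⟩

end Ideals

section Multidegree
variable {n : ℕ}

/-- extend an exponent vector by the exponent of the new variable -/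
noncomputable def extd (a : Fin n →₀ ℕ) (d : ℕ) : Fin (n + 1) →₀ ℕ :=
  Finsupp.equivFunOnFinite.symm (Fin.snoc (α := fun _ => ℕ) (⇑a) d)

lemma extd_castSucc (a : Fin n →₀ ℕ) (d : ℕ) (x : Fin n) : extd a d (Fin.castSucc x) = a x := by
  unfold extd
  rw [Finsupp.equivFunOnFinite_symm_apply_apply, Fin.snoc_castSucc]

lemma extd_last (a : Fin n →₀ ℕ) (d : ℕ) : extd a d (Fin.last n) = d := by
  unfold extd
  rw [Finsupp.equivFunOnFinite_symm_apply_apply, Fin.snoc_last]

lemma extd_degree (a : Fin n →₀ ℕ) (d : ℕ) : (extd a d).degree = a.degree + d := by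
  rw [Finsupp.degree_eq_sum, Fin.sum_univ_castSucc, extd_last, Finsupp.degree_eq_sum]
  congr 1
  exact Finset.sum_congr rfl fun x _ => extd_castSucc a d x

lemma le_extd_iff {a : Fin n →₀ ℕ} {d : ℕ} {m : Fin (n + 1) →₀ ℕ} :
    m ≤ extd a d ↔ (∀ x, m (Fin.castSucc x) ≤ a x) ∧ m (Fin.last n) ≤ d := by
  constructor
  · intro h
    refine ⟨fun x => ?_, ?_⟩
    · have := h (Fin.castSucc x)
      rwa [extd_castSucc] at this
    · have := h (Fin.last n)
      rwa [extd_last] at this
  · rintro ⟨h1, h2⟩ x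
    refine Fin.lastCases ?_ (fun y => ?_) x
    · rw [extd_last]; exact h2
    · rw [extd_castSucc]; exact h1 y

lemma ind_up_castSucc (T : Finset (Fin n)) (x : Fin n) : ind (up T) (Fin.castSucc x) = ind T x := by
  rw [ind_apply, ind_apply]
  simp only [castSucc_mem_up]

lemma ind_up_last (T : Finset (Fin n)) : ind (up T) (Fin.last n) = 0 := by
  rw [ind_apply, if_neg last_notMem_up]

lemma ind_upy_castSucc (T : Finset (Fin n)) (x : Fin n) :
    ind (upy T) (Fin.castSucc x) = ind T x := by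
  rw [ind_apply, ind_apply]
  simp only [castSucc_mem_upy]

lemma ind_upy_last (T : Finset (Fin n)) : ind (upy T) (Fin.last n) = 1 := by
  rw [ind_apply, if_pos last_mem_upy]

lemma ext_fin {m m' : Fin (n + 1) →₀ ℕ} (h1 : ∀ x, m (Fin.castSucc x) = m' (Fin.castSucc x))
    (h2 : m (Fin.last n) = m' (Fin.last n)) : m = m' := by
  ext x
  refine Fin.lastCases ?_ (fun y => ?_) x
  · exact h2
  · exact h1 y

lemma extd_sub_up (a : Fin n →₀ ℕ) (d : ℕ) (T : Finset (Fin n)) :
    extd a d - ind (up T) = extd (a - ind T) d := by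
  apply ext_fin
  · intro x
    rw [Finsupp.tsub_apply, extd_castSucc, extd_castSucc, ind_up_castSucc, Finsupp.tsub_apply]
  · rw [Finsupp.tsub_apply, extd_last, extd_last, ind_up_last, Nat.sub_zero]

lemma extd_sub_upy (a : Fin n →₀ ℕ) (d : ℕ) (T : Finset (Fin n)) :
    extd a (d + 1) - ind (upy T) = extd (a - ind T) d := by
  apply ext_fin
  · intro x
    rw [Finsupp.tsub_apply, extd_castSucc, extd_castSucc, ind_upy_castSucc, Finsupp.tsub_apply]
  · rw [Finsupp.tsub_apply, extd_last, extd_last, ind_upy_last, Nat.add_sub_cancel]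

lemma up_le (a : Fin n →₀ ℕ) (d : ℕ) (T : Finset (Fin n)) :
    ind (up T) ≤ extd a d ↔ ind T ≤ a := by
  rw [le_extd_iff, ind_up_last]
  simp only [ind_up_castSucc]
  exact ⟨fun h => h.1, fun h => ⟨h, Nat.zero_le _⟩⟩

lemma upy_le (a : Fin n →₀ ℕ) (d : ℕ) (T : Finset (Fin n)) :
    ind (upy T) ≤ extd a (d + 1) ↔ ind T ≤ a := by
  rw [le_extd_iff, ind_upy_last]
  simp only [ind_upy_castSucc]
  exact ⟨fun h => h.1, fun h => ⟨h, Nat.le_add_left _ _⟩⟩

/-- total degree in the old variables -/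
def xdeg (m : Fin (n + 1) →₀ ℕ) : ℕ := ∑ x : Fin n, m (Fin.castSucc x)

lemma xdeg_add (m m' : Fin (n + 1) →₀ ℕ) : xdeg (m + m') = xdeg m + xdeg m' := by
  unfold xdeg
  rw [← Finset.sum_add_distrib]
  rfl

lemma xdeg_single_castSucc (x : Fin n) : xdeg (Finsupp.single (Fin.castSucc x) 1) = 1 := by
  unfold xdeg
  rw [Finset.sum_eq_single x]
  · rw [Finsupp.single_eq_same]
  · intro y _ hne
    rw [Finsupp.single_eq_of_ne]
    intro h
    exact hne (Fin.castSucc_injective n h)
  · intro h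
    exact absurd (Finset.mem_univ x) h

lemma xdeg_single_last : xdeg (Finsupp.single (Fin.last n) 1) = 0 := by
  unfold xdeg
  apply Finset.sum_eq_zero
  intro y _
  rw [Finsupp.single_eq_of_ne]
  exact Fin.castSucc_ne_last y

lemma xdeg_le {a : Fin n →₀ ℕ} {d : ℕ} {m : Fin (n + 1) →₀ ℕ} (h : m ≤ extd a d) :
    xdeg m ≤ a.degree := by
  unfold xdeg
  rw [Finsupp.degree_eq_sum]
  exact Finset.sum_le_sum fun x _ => (le_extd_iff.mp h).1 x

lemma cone_castSucc_adj {G : SimpleGraph (Fin n)} {u v : Fin n} :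
    (cone G).Adj (Fin.castSucc u) (Fin.castSucc v) ↔ G.Adj u v := by
  constructor
  · rintro (⟨a, b, h, h1, h2⟩ | h | h)
    · rw [Fin.castSucc_injective n h1, Fin.castSucc_injective n h2]
      exact h
    · exact absurd h.1 (Fin.castSucc_ne_last u)
    · exact absurd h.1 (Fin.castSucc_ne_last v)
  · intro h
    exact Or.inl ⟨u, v, h, rfl, rfl⟩

lemma cone_last_adj (G : SimpleGraph (Fin n)) (u : Fin n) :
    (cone G).Adj (Fin.castSucc u) (Fin.last n) :=
  Or.inr (Or.inr ⟨rfl, Fin.castSucc_ne_last u⟩)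

/-- the two kinds of edges of a cone -/
lemma cone_edge {G : SimpleGraph (Fin n)} {e : Fin (n + 1) →₀ ℕ} (he : e ∈ gens (cone G)) :
    (∃ u v : Fin n, G.Adj u v ∧
      e = Finsupp.single (Fin.castSucc u) 1 + Finsupp.single (Fin.castSucc v) 1) ∨
    (∃ u : Fin n, e = Finsupp.single (Fin.castSucc u) 1 + Finsupp.single (Fin.last n) 1) := by
  obtain ⟨x, y, hxy, rfl⟩ := he
  rcases hxy with ⟨a, b, h, rfl, rfl⟩ | ⟨rfl, h⟩ | ⟨rfl, h⟩
  · exact Or.inl ⟨a, b, h, rfl⟩
  · obtain ⟨u, rfl⟩ := Fin.exists_castSucc_eq.mpr h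
    exact Or.inr ⟨u, add_comm _ _⟩
  · obtain ⟨u, rfl⟩ := Fin.exists_castSucc_eq.mpr h
    exact Or.inr ⟨u, rfl⟩

lemma PG2_iff {N : ℕ} {G : SimpleGraph (Fin N)} {m : Fin N →₀ ℕ} :
    m ∈ PG2 G ↔ ∃ e ∈ gens G, ∃ e' ∈ gens G, e + e' ≤ m := by
  constructor
  · rintro ⟨u, v, u', v', h, h', hle⟩
    exact ⟨_, ⟨u, v, h, rfl⟩, _, ⟨u', v', h', rfl⟩, hle⟩
  · rintro ⟨_, ⟨u, v, h, rfl⟩, _, ⟨u', v', h', rfl⟩, hle⟩
    exact ⟨u, v, u', v', h, h', hle⟩

lemma exists_pos_of_degree {a : Fin n →₀ ℕ} (h : 0 < a.degree) : ∃ x, 1 ≤ a x := by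
  by_contra hcon
  push Not at hcon
  rw [Finsupp.degree_eq_sum, Finset.sum_eq_zero] at h
  · exact absurd h (lt_irrefl 0)
  · intro x _
    have := hcon x
    omega

lemma exists_single_le {a : Fin n →₀ ℕ} (h : 0 < a.degree) : ∃ x, Finsupp.single x 1 ≤ a := by
  obtain ⟨x, hx⟩ := exists_pos_of_degree h
  exact ⟨x, Finsupp.single_le_iff.mpr hx⟩

lemma exists_add_single_le {a b : Fin n →₀ ℕ} (hb : b ≤ a) (h : b.degree < a.degree) :
    ∃ x, b + Finsupp.single x 1 ≤ a := by
  have h1 : (a - b).degree + b.degree = a.degree := by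
    rw [← map_add, tsub_add_cancel_of_le hb]
  obtain ⟨x, hx⟩ := exists_single_le (a := a - b) (by omega)
  refine ⟨x, ?_⟩
  have h2 : a = b + (a - b) := by rw [add_comm, tsub_add_cancel_of_le hb]
  rw [h2]
  exact add_le_add le_rfl hx

lemma castSucc_sum_le {a : Fin n →₀ ℕ} {d : ℕ} {b : Fin n →₀ ℕ} {m : Fin (n + 1) →₀ ℕ}
    (hm : ∀ x, m (Fin.castSucc x) = b x) (hml : m (Fin.last n) ≤ d) (hb : b ≤ a) :
    m ≤ extd a d := by
  rw [le_extd_iff]
  refine ⟨fun x => ?_, hml⟩
  rw [hm]; exact hb x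

lemma single_castSucc_castSucc (u x : Fin n) :
    (Finsupp.single (Fin.castSucc u) 1 : Fin (n + 1) →₀ ℕ) (Fin.castSucc x)
      = Finsupp.single u 1 x := by
  classical
  rw [Finsupp.single_apply, Finsupp.single_apply]
  simp only [Fin.castSucc_inj]

lemma single_last_castSucc (x : Fin n) :
    (Finsupp.single (Fin.last n) 1 : Fin (n + 1) →₀ ℕ) (Fin.castSucc x) = 0 := by
  rw [Finsupp.single_eq_of_ne]
  exact Fin.castSucc_ne_last x

lemma single_castSucc_last (x : Fin n) :
    (Finsupp.single (Fin.castSucc x) 1 : Fin (n + 1) →₀ ℕ) (Fin.last n) = 0 := by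
  rw [Finsupp.single_eq_of_ne]
  exact (Fin.castSucc_ne_last x).symm

/-- degree two in the new variable -/
lemma extd_two_mem (G : SimpleGraph (Fin n)) (b : Fin n →₀ ℕ) :
    extd b 2 ∈ PG2 (cone G) ↔ 2 ≤ b.degree := by
  rw [PG2_iff]
  constructor
  · rintro ⟨e, he, e', he', hle⟩
    have h1 : ∀ f ∈ gens (cone G), 1 ≤ xdeg f := by
      intro f hf
      rcases cone_edge hf with ⟨u, v, _, rfl⟩ | ⟨u, rfl⟩
      · rw [xdeg_add, xdeg_single_castSucc]; omega
      · rw [xdeg_add, xdeg_single_castSucc]; omega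
    have h2 := xdeg_le hle
    rw [xdeg_add] at h2
    have h3 := h1 e he
    have h4 := h1 e' he'
    omega
  · intro h
    obtain ⟨x, hx⟩ := exists_single_le (a := b) (by omega)
    obtain ⟨y, hy⟩ := exists_add_single_le hx (by rw [Finsupp.degree_single]; omega)
    refine ⟨_, ⟨Fin.castSucc x, Fin.last n, cone_last_adj G x, rfl⟩,
      _, ⟨Fin.castSucc y, Fin.last n, cone_last_adj G y, rfl⟩, ?_⟩
    apply castSucc_sum_le _ _ hy
    · intro z
      simp only [Finsupp.add_apply, single_castSucc_castSucc, single_last_castSucc, add_zero]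
    · simp only [Finsupp.add_apply, single_castSucc_last, Finsupp.single_eq_same]
      norm_num

/-- degree one in the new variable -/
lemma extd_one_mem (G : SimpleGraph (Fin n)) (b : Fin n →₀ ℕ) :
    extd b 1 ∈ PG2 (cone G) ↔ b ∈ PG G ∧ 3 ≤ b.degree := by
  rw [PG2_iff]
  constructor
  · rintro ⟨e, he, e', he', hle⟩
    have key : ∀ e ∈ gens (cone G), ∀ e' ∈ gens (cone G), e + e' ≤ extd b 1 →
        (∃ u v : Fin n, G.Adj u v ∧
          e = Finsupp.single (Fin.castSucc u) 1 + Finsupp.single (Fin.castSucc v) 1) →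
        b ∈ PG G ∧ 3 ≤ b.degree := by
      rintro e he e' he' hle ⟨u, v, huv, rfl⟩
      have h2 := xdeg_le hle
      have h3 : 1 ≤ xdeg e' := by
        rcases cone_edge he' with ⟨u, v, _, rfl⟩ | ⟨u, rfl⟩
        · rw [xdeg_add, xdeg_single_castSucc]; omega
        · rw [xdeg_add, xdeg_single_castSucc]; omega
      rw [xdeg_add, xdeg_add, xdeg_single_castSucc, xdeg_single_castSucc] at h2
      refine ⟨⟨u, v, huv, ?_⟩, by omega⟩
      intro x
      have h4 := (le_extd_iff.mp hle).1 x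
      simp only [Finsupp.add_apply, single_castSucc_castSucc] at h4 ⊢
      omega
    rcases cone_edge he with h | ⟨u, hu⟩
    · exact key e he e' he' hle h
    · rcases cone_edge he' with h | ⟨v, hv⟩
      · exact key e' he' e he (by rw [add_comm e' e]; exact hle) h
      · exfalso
        have h4 := (le_extd_iff.mp hle).2
        rw [hu, hv] at h4
        simp only [Finsupp.add_apply, single_castSucc_last, Finsupp.single_eq_same] at h4
        omega
  · rintro ⟨⟨u, v, huv, hle⟩, h3⟩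
    obtain ⟨x, hx⟩ := exists_add_single_le hle (by
      rw [map_add, Finsupp.degree_single, Finsupp.degree_single]; omega)
    refine ⟨_, ⟨Fin.castSucc u, Fin.castSucc v, cone_castSucc_adj.mpr huv, rfl⟩,
      _, ⟨Fin.castSucc x, Fin.last n, cone_last_adj G x, rfl⟩, ?_⟩
    apply castSucc_sum_le _ _ hx
    · intro z
      simp only [Finsupp.add_apply, single_castSucc_castSucc, single_last_castSucc, add_zero]
    · simp only [Finsupp.add_apply, single_castSucc_last, Finsupp.single_eq_same]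
      norm_num

end Multidegree

section Final
variable {n : ℕ}

/-- the part without the new variable -/
def Dcx (a : Fin n →₀ ℕ) : Set (Finset (Fin n)) :=
  {T | ind T ≤ a ∧ 2 ≤ (a - ind T).degree}

/-- the link of the new variable -/
def Ecx (G : SimpleGraph (Fin n)) (a : Fin n →₀ ℕ) : Set (Finset (Fin n)) :=
  {T | ind T ≤ a ∧ (a - ind T ∈ PG G ∧ 3 ≤ (a - ind T).degree)}

lemma degree_sub {a : Fin n →₀ ℕ} {T : Finset (Fin n)} (h : ind T ≤ a) :
    (a - ind T).degree + T.card = a.degree := by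
  rw [← ind_degree, ← map_add, tsub_add_cancel_of_le h]

lemma ind_le_iff {a : Fin n →₀ ℕ} {T : Finset (Fin n)} : ind T ≤ a ↔ T ⊆ a.support := by
  constructor
  · intro h x hx
    have := h x
    rw [ind_apply, if_pos hx] at this
    rw [Finsupp.mem_support_iff]
    omega
  · intro h x
    rw [ind_apply]
    split_ifs with hx
    · exact Nat.one_le_iff_ne_zero.mpr (Finsupp.mem_support_iff.mp (h hx))
    · exact Nat.zero_le _

lemma PG_degree {G : SimpleGraph (Fin n)} {m : Fin n →₀ ℕ} (h : m ∈ PG G) : 2 ≤ m.degree := by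
  obtain ⟨u, v, _, hle⟩ := h
  have := Finsupp.degree_mono hle
  rw [map_add, Finsupp.degree_single, Finsupp.degree_single] at this
  exact this

variable (k : Type*) [Field k]

/-- cycles for the cone -/
lemma cyc_cone (G : SimpleGraph (Fin n)) {a : Fin n →₀ ℕ} {N : ℕ} (ha : a.degree = N + 2)
    (l : ℕ) :
    cyc k (n + 1) (cx (PG2 (cone G)) (extd a 2)) (l + 1)
      = cyc k n (Dcx a) (l + 1) + cyc k n (Ecx G a) l := by
  apply cyc_split
  · intro T
    show ind (up T) ≤ extd a 2 ∧ extd a 2 - ind (up T) ∈ PG2 (cone G) ↔ _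
    rw [up_le, extd_sub_up, extd_two_mem]
    rfl
  · intro T
    show ind (upy T) ≤ extd a 2 ∧ extd a 2 - ind (upy T) ∈ PG2 (cone G) ↔ _
    rw [upy_le, extd_sub_upy, extd_one_mem]
    rfl
  · intro v hv hbd
    have hsupp : a.support.Nonempty := by
      obtain ⟨x, hx⟩ := exists_pos_of_degree (a := a) (by omega)
      exact ⟨x, Finsupp.mem_support_iff.mpr (by omega)⟩
    by_cases hv0 : v = 0
    · exact ⟨0, Submodule.zero_mem _, by rw [hv0, map_zero]⟩
    · -- a face of E of size l exists so l < N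
      have hlN : l + 1 ≤ N := by
        obtain ⟨T, hT⟩ : ∃ T, v T ≠ 0 := by
          by_contra hcon
          push Not at hcon
          exact hv0 (funext hcon)
        obtain ⟨⟨h1, _, h3⟩, h4⟩ := hv T hT
        have := degree_sub h1
        omega
      have hv2 : v ∈ chains k n (full a.support) l := by
        intro T hT
        obtain ⟨h1, h2⟩ := hv T hT
        exact ⟨ind_le_iff.mp h1.1, h2⟩
      obtain ⟨w, hw1, hw2⟩ := exact_full hsupp hv2 hbd
      refine ⟨w, ?_, hw2⟩
      intro T hT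
      obtain ⟨h1, h2⟩ := hw1 T hT
      have h3 : ind T ≤ a := ind_le_iff.mpr h1
      have := degree_sub h3
      exact ⟨⟨h3, by omega⟩, h2⟩

lemma chains_congr {Γ Γ' : Set (Finset (Fin n))} {l : ℕ}
    (h : ∀ T : Finset (Fin n), T.card = l → (T ∈ Γ ↔ T ∈ Γ')) :
    chains k n Γ l = chains k n Γ' l := by
  ext c
  constructor
  · intro hc T hT
    obtain ⟨h1, h2⟩ := hc T hT
    exact ⟨(h T h2).mp h1, h2⟩
  · intro hc T hT
    obtain ⟨h1, h2⟩ := hc T hT
    exact ⟨(h T h2).mpr h1, h2⟩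

lemma cyc_congr {Γ Γ' : Set (Finset (Fin n))} {l : ℕ}
    (h : ∀ T : Finset (Fin n), T.card = l → (T ∈ Γ ↔ T ∈ Γ')) :
    cyc k n Γ l = cyc k n Γ' l := by
  unfold cyc
  rw [chains_congr k h]

lemma cyc_eq_zero {Γ : Set (Finset (Fin n))} {l : ℕ}
    (h : ∀ T : Finset (Fin n), T.card = l → T ∉ Γ) : cyc k n Γ l = 0 := by
  unfold cyc
  have : chains k n Γ l = ⊥ := by
    rw [eq_bot_iff]
    intro c hc
    rw [Submodule.mem_bot]
    funext T
    by_contra hT
    obtain ⟨h1, h2⟩ := hc T hT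
    exact h T h2 h1
  rw [this, inf_bot_eq, finrank_bot]

lemma cyc_E_lt (G : SimpleGraph (Fin n)) {a : Fin n →₀ ℕ} {N : ℕ} (ha : a.degree = N + 2)
    {l : ℕ} (hl : l < N) : cyc k n (Ecx G a) l = cyc k n (cx (PG G) a) l := by
  apply cyc_congr
  intro T hT
  constructor
  · rintro ⟨h1, h2, _⟩
    exact ⟨h1, h2⟩
  · rintro ⟨h1, h2⟩
    have := degree_sub h1
    exact ⟨h1, h2, by omega⟩

lemma cyc_E_ge (G : SimpleGraph (Fin n)) {a : Fin n →₀ ℕ} {N : ℕ} (ha : a.degree = N + 2)
    {l : ℕ} (hl : N ≤ l) : cyc k n (Ecx G a) l = 0 := by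
  apply cyc_eq_zero
  rintro T hT ⟨h1, _, h3⟩
  have := degree_sub h1
  omega

lemma cyc_F_gt (G : SimpleGraph (Fin n)) {a : Fin n →₀ ℕ} {N : ℕ} (ha : a.degree = N + 2)
    {l : ℕ} (hl : N < l) : cyc k n (cx (PG G) a) l = 0 := by
  apply cyc_eq_zero
  rintro T hT ⟨h1, h2⟩
  have := degree_sub h1
  have h3 := PG_degree h2
  omega

/-- if some exponent is at least two the top strand has no cycles -/
lemma cyc_top_zero (G : SimpleGraph (Fin n)) {a : Fin n →₀ ℕ} {N : ℕ} (ha : a.degree = N + 2)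
    {x : Fin n} (hx : 1 < a x) : cyc k n (cx (PG G) a) N = 0 := by
  classical
  have hmem : ∀ T : Finset (Fin n), T.card = N → T ∈ cx (PG G) a → x ∈ T := by
    rintro T hT ⟨h1, u, v, huv, hle⟩
    by_contra hxT
    have h2 := degree_sub h1
    have h3 : (Finsupp.single u 1 + Finsupp.single v 1 : Fin n →₀ ℕ).degree = 2 := by
      rw [map_add, Finsupp.degree_single, Finsupp.degree_single]
    have h4 : a - ind T = Finsupp.single u 1 + Finsupp.single v 1 := by
      have h5 : (a - ind T - (Finsupp.single u 1 + Finsupp.single v 1)).degree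
          + (Finsupp.single u 1 + Finsupp.single v 1 : Fin n →₀ ℕ).degree
          = (a - ind T).degree := by
        rw [← map_add, tsub_add_cancel_of_le hle]
      have h6 : (a - ind T - (Finsupp.single u 1 + Finsupp.single v 1)).degree = 0 := by
        omega
      rw [Finsupp.degree_eq_zero_iff] at h6
      have h7 := tsub_add_cancel_of_le hle
      rw [h6, zero_add] at h7
      exact h7.symm
    have h5 := DFunLike.congr_fun h4 x
    rw [Finsupp.tsub_apply, ind_apply, if_neg hxT, Finsupp.add_apply, Finsupp.single_apply,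
      Finsupp.single_apply] at h5
    have hne := huv.ne
    split_ifs at h5 with h6 h7 h7
    · exact hne (h6.trans h7.symm)
    · omega
    · omega
    · omega
  unfold cyc
  have : LinearMap.ker (bd k n) ⊓ chains k n (cx (PG G) a) N = ⊥ := by
    rw [eq_bot_iff]
    intro c hc
    rw [Submodule.mem_inf, LinearMap.mem_ker] at hc
    rw [Submodule.mem_bot]
    funext T
    by_contra hT
    obtain ⟨h1, h2⟩ := hc.2 T hT
    have hxT := hmem T h2 h1
    have h3 := congrFun hc.1 (T.erase x)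
    rw [bd_apply, Pi.zero_apply, Finset.sum_eq_single x] at h3
    · rw [Finset.insert_erase hxT] at h3
      rcases ksign_ne x (T.erase x) with h4 | h4 <;> rw [h4] at h3 <;> simp at h3 <;>
        exact hT h3
    · intro t ht htx
      rw [chains_zero_of hc.2, mul_zero]
      rintro ⟨h5, h6⟩
      have h7 := hmem _ h6 h5
      rw [Finset.mem_insert] at h7
      rcases h7 with h7 | h7
      · exact htx h7.symm
      · exact Finset.notMem_erase x T h7
    · intro h
      exact absurd (Finset.mem_compl.mpr (Finset.notMem_erase x T)) h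
  rw [this, finrank_bot]

/-- the top strand does not depend on the field -/
lemma cyc_top (G : SimpleGraph (Fin n)) {a : Fin n →₀ ℕ} {N : ℕ} (ha : a.degree = N + 2) :
    cyc k n (cx (PG G) a) N = cyc ℚ n (cx (PG G) a) N := by
  classical
  by_cases hsq : ∀ x, a x ≤ 1
  · -- squarefree multidegree
    have haind : a = ind a.support := by
      ext x
      rw [ind_apply]
      split_ifs with h
      · have := Finsupp.mem_support_iff.mp h
        have := hsq x
        omega
      · exact Finsupp.notMem_support_iff.mp h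
    have hcard : a.support.card = N + 2 := by
      rw [← ind_degree, ← haind, ha]
    have hcong : ∀ T : Finset (Fin n), T.card = N →
        (T ∈ cx (PG G) a ↔ T ∈ Fsq G a.support) := by
      intro T hT
      constructor
      · rintro ⟨h1, u, v, huv, hle⟩
        refine ⟨ind_le_iff.mp h1, ?_⟩
        have hu := hle u
        have hv := hle v
        have hne := huv.ne
        rw [Finsupp.add_apply, Finsupp.single_eq_same, Finsupp.tsub_apply, ind_apply] at hu hv
        rw [Finsupp.single_eq_of_ne hne] at hu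
        rw [Finsupp.single_eq_of_ne hne.symm] at hv
        have hu1 := hsq u
        have hv1 := hsq v
        refine ⟨u, ?_, v, ?_, huv, ?_, ?_⟩
        · rw [Finsupp.mem_support_iff]; omega
        · rw [Finsupp.mem_support_iff]; omega
        · intro h
          rw [if_pos h] at hu
          omega
        · intro h
          rw [if_pos h] at hv
          omega
      · rintro ⟨h1, u, hu, v, hv, huv, hu2, hv2⟩
        refine ⟨ind_le_iff.mpr h1, u, v, huv, ?_⟩
        intro x
        rw [Finsupp.add_apply, Finsupp.tsub_apply, ind_apply, Finsupp.single_apply,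
          Finsupp.single_apply]
        have hux := Finsupp.mem_support_iff.mp hu
        have hvx := Finsupp.mem_support_iff.mp hv
        have hne := huv.ne
        by_cases h1 : u = x
        · subst h1
          rw [if_pos rfl, if_neg (Ne.symm hne), if_neg hu2]
          omega
        · rw [if_neg h1]
          by_cases h2 : v = x
          · subst h2
            rw [if_pos rfl, if_neg hv2]
            omega
          · rw [if_neg h2]
            exact Nat.zero_le _
    have e1 := finrank_sq k G a.support hcard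
    have e2 := finrank_sq ℚ G a.support hcard
    rw [cyc_congr k hcong, cyc_congr ℚ hcong]
    omega
  · -- some exponent is at least two: no cycles
    push Not at hsq
    obtain ⟨x, hx⟩ := hsq
    rw [cyc_top_zero k G ha hx, cyc_top_zero ℚ G ha hx]

/-- the comparison in a single multidegree -/
lemma strict_mdeg (G : SimpleGraph (Fin n)) {a : Fin n →₀ ℕ} {i : ℕ}
    (h : cyc ℚ n (cx (PG G) a) i + cyc ℚ n (cx (PG G) a) (i + 1)
      < cyc k n (cx (PG G) a) i + cyc k n (cx (PG G) a) (i + 1)) :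
    cyc ℚ (n + 1) (cx (PG2 (cone G)) (extd a 2)) (i + 1)
        + cyc ℚ (n + 1) (cx (PG2 (cone G)) (extd a 2)) (i + 2)
      < cyc k (n + 1) (cx (PG2 (cone G)) (extd a 2)) (i + 1)
        + cyc k (n + 1) (cx (PG2 (cone G)) (extd a 2)) (i + 2) := by
  by_cases ha : 2 ≤ a.degree
  · obtain ⟨N, hN⟩ : ∃ N, a.degree = N + 2 := ⟨a.degree - 2, by omega⟩
    have htop := cyc_top k G hN
    have hi : i < N := by
      by_contra hcon
      rw [not_lt] at hcon
      have h1 := cyc_F_gt k G hN (l := i + 1) (by omega)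
      have h2 := cyc_F_gt ℚ G hN (l := i + 1) (by omega)
      rcases Nat.eq_or_lt_of_le hcon with h3 | h3
      · rw [← h3] at h h1 h2
        omega
      · have h4 := cyc_F_gt k G hN (l := i) h3
        have h5 := cyc_F_gt ℚ G hN (l := i) h3
        omega
    rw [cyc_cone k G hN i, cyc_cone ℚ G hN i, cyc_cone k G hN (i + 1),
      cyc_cone ℚ G hN (i + 1)]
    have hD1 := cyc_mono k n (Dcx a) (i + 1)
    have hD2 := cyc_mono k n (Dcx a) (i + 1 + 1)
    have hE1 : cyc k n (Ecx G a) i = cyc k n (cx (PG G) a) i := cyc_E_lt k G hN hi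
    have hE2 : cyc ℚ n (Ecx G a) i = cyc ℚ n (cx (PG G) a) i := cyc_E_lt ℚ G hN hi
    rcases Nat.lt_or_ge (i + 1) N with h1 | h1
    · have hE3 : cyc k n (Ecx G a) (i + 1) = cyc k n (cx (PG G) a) (i + 1) := cyc_E_lt k G hN h1
      have hE4 : cyc ℚ n (Ecx G a) (i + 1) = cyc ℚ n (cx (PG G) a) (i + 1) := cyc_E_lt ℚ G hN h1
      omega
    · have h2 : i + 1 = N := by omega
      have hE3 : cyc k n (Ecx G a) (i + 1) = 0 := cyc_E_ge k G hN h1
      have hE4 : cyc ℚ n (Ecx G a) (i + 1) = 0 := cyc_E_ge ℚ G hN h1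
      rw [← h2] at htop
      omega
  · exfalso
    have hz : ∀ T : Finset (Fin n), T ∉ cx (PG G) a := by
      rintro T ⟨h1, h2⟩
      have h3 := degree_sub h1
      have h4 := PG_degree h2
      omega
    rw [cyc_eq_zero k (fun T _ => hz T), cyc_eq_zero k (fun T _ => hz T)] at h
    omega

/-- comparison of Betti numbers with the rational ones, for monomial ideals -/
lemma betti_mono {P : Set (Fin n →₀ ℕ)} {I : Ideal (MvPolynomial (Fin n) k)}
    {I₀ : Ideal (MvPolynomial (Fin n) ℚ)} (hI : IsMon I P) (hI₀ : IsMon I₀ P) (i j : ℕ) :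
    betti I₀ i j ≤ betti I i j ∧ (betti I₀ i j < betti I i j ↔
      ∃ a : Fin n →₀ ℕ, a.degree = j ∧ cyc ℚ n (cx P a) i + cyc ℚ n (cx P a) (i + 1)
        < cyc k n (cx P a) i + cyc k n (cx P a) (i + 1)) := by
  have h1 := betti_formula hI i j (fun f hf => koszulD_strand hf)
  have h2 := betti_formula hI₀ i j (fun f hf => koszulD_strand hf)
  have hle : ∀ a ∈ (Finset.univ : Finset ↥(mdeg n j)),
      cyc ℚ n (cx P a.1) i + cyc ℚ n (cx P a.1) (i + 1)
      ≤ cyc k n (cx P a.1) i + cyc k n (cx P a.1) (i + 1) := fun a _ =>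
    add_le_add (cyc_mono k n _ _) (cyc_mono k n _ _)
  have h3 := Finset.sum_le_sum hle
  refine ⟨by omega, ?_⟩
  constructor
  · intro h
    by_contra hcon
    push Not at hcon
    have h4 : ∑ a : ↥(mdeg n j), (cyc k n (cx P a.1) i + cyc k n (cx P a.1) (i + 1))
        ≤ ∑ a : ↥(mdeg n j), (cyc ℚ n (cx P a.1) i + cyc ℚ n (cx P a.1) (i + 1)) :=
      Finset.sum_le_sum fun a _ => hcon a.1 (mem_mdeg.mp a.2)
    omega
  · rintro ⟨a, ha, hlt⟩
    have h4 := Finset.sum_lt_sum hle ⟨⟨a, mem_mdeg.mpr ha⟩, Finset.mem_univ _, hlt⟩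
    omega

/-- the main comparison -/
theorem betti_sq_cone (G : SimpleGraph (Fin n)) {i j : ℕ}
    (h : betti (edgeIdeal k G) i j ≠ betti (edgeIdeal ℚ G) i j) :
    betti (edgeIdeal ℚ (cone G) ^ 2) (i + 1) (j + 2)
      < betti (edgeIdeal k (cone G) ^ 2) (i + 1) (j + 2) := by
  obtain ⟨h1, h2⟩ := betti_mono k (isMon_edgeIdeal k G) (isMon_edgeIdeal ℚ G) i j
  obtain ⟨a, ha, hlt⟩ := h2.mp (lt_of_le_of_ne h1 (Ne.symm h))
  rw [(betti_mono k (isMon_edgeIdeal_sq k (cone G)) (isMon_edgeIdeal_sq ℚ (cone G))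
    (i + 1) (j + 2)).2]
  exact ⟨extd a 2, by rw [extd_degree, ha], strict_mdeg k G hlt⟩

end Final

end Pool.Agent.ConeEdge
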