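import Pool.Agent.Lib.MP_01886a_al.Chains

namespace Pool.Agent.ConeEdge

open MvPolynomial

section Multigraded
variable {k : Type*} [Field k] {n : ℕ}

/-- exponent vector of a squarefree monomial -/
noncomputable def ind (T : Finset (Fin n)) : Fin n →₀ ℕ := ∑ t ∈ T, Finsupp.single t 1

lemma ind_apply (T : Finset (Fin n)) (x : Fin n) : ind T x = if x ∈ T then 1 else 0 := by
  classical
  unfold ind
  rw [Finsupp.finsetSum_apply]
  simp only [Finsupp.single_apply]
  rw [Finset.sum_ite_eq']

lemma ind_degree (T : Finset (Fin n)) : (ind T).degree = T.card := by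
  unfold ind
  rw [map_sum]
  simp

lemma ind_insert {t : Fin n} {T : Finset (Fin n)} (ht : t ∉ T) :
    ind (insert t T) = Finsupp.single t 1 + ind T := by
  unfold ind
  rw [Finset.sum_insert ht]

/-- multidegrees of total degree `j` -/
noncomputable def mdeg (n j : ℕ) : Finset (Fin n →₀ ℕ) := Finset.finsuppAntidiag Finset.univ j

lemma mem_mdeg {j : ℕ} {a : Fin n →₀ ℕ} : a ∈ mdeg n j ↔ a.degree = j := by
  unfold mdeg
  rw [Finset.mem_finsuppAntidiag, Finsupp.degree_eq_sum]
  simp

/-- decomposition into multidegrees -/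
noncomputable def decomp (k : Type*) [Field k] (n j : ℕ) :
    (Finset (Fin n) → MvPolynomial (Fin n) k) →ₗ[k] (↥(mdeg n j) → Finset (Fin n) → k) where
  toFun f a T := coeff a.1 (monomial (ind T) 1 * f T)
  map_add' f g := by
    funext a T
    simp only [Pi.add_apply, mul_add, coeff_add]
  map_smul' c f := by
    funext a T
    simp only [Pi.smul_apply, RingHom.id_apply, mul_smul_comm, coeff_smul]

lemma decomp_apply (j : ℕ) (f : Finset (Fin n) → MvPolynomial (Fin n) k) (a : ↥(mdeg n j))
    (T : Finset (Fin n)) : decomp k n j f a T = coeff a.1 (monomial (ind T) 1 * f T) := rfl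

lemma decomp_apply' (j : ℕ) (f : Finset (Fin n) → MvPolynomial (Fin n) k) (a : ↥(mdeg n j))
    (T : Finset (Fin n)) : decomp k n j f a T
      = if ind T ≤ a.1 then coeff (a.1 - ind T) (f T) else 0 := by
  rw [decomp_apply, coeff_monomial_mul']
  simp

lemma decomp_koszulD (j : ℕ) (f : Finset (Fin n) → MvPolynomial (Fin n) k) (a : ↥(mdeg n j)) :
    decomp k n j (koszulD k n f) a = bd k n (decomp k n j f a) := by
  funext T
  rw [decomp_apply, bd_apply]
  have h1 : koszulD k n f T
      = ∑ t ∈ Tᶜ, (ksign t T : MvPolynomial (Fin n) k) * (X t * f (insert t T)) := rfl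
  rw [h1, Finset.mul_sum, coeff_sum]
  refine Finset.sum_congr rfl fun t ht => ?_
  rw [Finset.mem_compl] at ht
  rw [decomp_apply, ind_insert ht]
  have h2 : (monomial (Finsupp.single t 1 + ind T)) (1 : k) = X t * monomial (ind T) 1 := by
    rw [X, monomial_mul, one_mul]
  rw [h2]
  have h3 : (monomial (ind T)) (1 : k)
      * ((ksign t T : MvPolynomial (Fin n) k) * (X t * f (insert t T)))
      = (ksign t T : MvPolynomial (Fin n) k) * (X t * (monomial (ind T)) 1 * f (insert t T)) := by
    ring
  rw [h3]
  have h4 : (ksign t T : MvPolynomial (Fin n) k) = C (ksign t T : k) := by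
    rw [map_intCast]
  rw [h4, coeff_C_mul]

/-- families all of whose monomials contribute to total degree `j` -/
def Hom (f : Finset (Fin n) → MvPolynomial (Fin n) k) (j : ℕ) : Prop :=
  ∀ T, ∀ m : Fin n →₀ ℕ, coeff m (f T) ≠ 0 → m.degree + T.card = j

lemma decomp_inj {j : ℕ} {f : Finset (Fin n) → MvPolynomial (Fin n) k} (hf : Hom f j)
    (h : decomp k n j f = 0) : f = 0 := by
  funext T
  ext m
  rw [Pi.zero_apply, coeff_zero]
  by_contra hm
  have hdeg : (m + ind T).degree = j := by
    rw [map_add, ind_degree]; exact hf T m hm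
  have h1 := congrFun (congrFun h ⟨m + ind T, mem_mdeg.mpr hdeg⟩) T
  rw [decomp_apply', if_pos le_add_self, add_tsub_cancel_right] at h1
  exact hm h1

lemma strand_hom {I : Ideal (MvPolynomial (Fin n) k)} {i j : ℕ}
    {f : Finset (Fin n) → MvPolynomial (Fin n) k} (hf : f ∈ strand I i j) : Hom f j := by
  intro T m hm
  have h1 := (hf T).2.2 m hm
  by_cases h : T.card = i
  · rw [h]; exact h1
  · exfalso
    apply hm
    rw [(hf T).2.1 h, coeff_zero]

lemma koszulD_hom {j : ℕ} {f : Finset (Fin n) → MvPolynomial (Fin n) k} (hf : Hom f j) :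
    Hom (koszulD k n f) j := by
  intro T m hm
  have h1 : koszulD k n f T
      = ∑ t ∈ Tᶜ, (ksign t T : MvPolynomial (Fin n) k) * (X t * f (insert t T)) := rfl
  rw [h1, coeff_sum] at hm
  obtain ⟨t, ht, hne⟩ := Finset.exists_ne_zero_of_sum_ne_zero hm
  rw [Finset.mem_compl] at ht
  have h4 : (ksign t T : MvPolynomial (Fin n) k) = C (ksign t T : k) := by
    rw [map_intCast]
  rw [h4, coeff_C_mul, coeff_X_mul'] at hne
  have h5 := right_ne_zero_of_mul hne
  split_ifs at h5 with h6
  · have h7 := hf _ _ h5
    rw [Finset.card_insert_of_notMem ht] at h7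
    have h8 : m = (m - Finsupp.single t 1) + Finsupp.single t 1 := by
      rw [tsub_add_cancel_of_le]
      rw [Finsupp.single_le_iff]
      exact Nat.one_le_iff_ne_zero.mpr (Finsupp.mem_support_iff.mp h6)
    have h9 : m.degree = (m - Finsupp.single t 1).degree + 1 := by
      conv_lhs => rw [h8]
      rw [map_add, Finsupp.degree_single]
    omega
  · exact absurd rfl h5

lemma koszulD_koszulD {j : ℕ} {f : Finset (Fin n) → MvPolynomial (Fin n) k} (hf : Hom f j) :
    koszulD k n (koszulD k n f) = 0 := by
  apply decomp_inj (koszulD_hom (koszulD_hom hf))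
  funext a
  rw [decomp_koszulD, decomp_koszulD, bd_bd, Pi.zero_apply]

/-- the complex of a set of exponents in multidegree `a` -/
def cx (P : Set (Fin n →₀ ℕ)) (a : Fin n →₀ ℕ) : Set (Finset (Fin n)) :=
  {T | ind T ≤ a ∧ a - ind T ∈ P}

/-- the ideal consists of the polynomials with all exponents in `P` -/
def IsMon (I : Ideal (MvPolynomial (Fin n) k)) (P : Set (Fin n →₀ ℕ)) : Prop :=
  ∀ f, f ∈ I ↔ ∀ m, coeff m f ≠ 0 → m ∈ P

lemma finrank_map_inj {V W : Type*} [AddCommGroup V] [Module k V] [AddCommGroup W] [Module k W]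
    (φ : V →ₗ[k] W) (A : Submodule k V) (hinj : ∀ x ∈ A, φ x = 0 → x = 0) :
    Module.finrank k (A.map φ) = Module.finrank k A := by
  have h : Function.Injective (φ.domRestrict A) := by
    rw [← LinearMap.ker_eq_bot, LinearMap.ker_eq_bot']
    intro x hx
    apply Subtype.ext
    exact hinj x.1 x.2 hx
  rw [← LinearMap.range_domRestrict]
  exact (LinearEquiv.ofInjective _ h).finrank_eq.symm

lemma finrank_pi_sub {ι : Type*} [Fintype ι] {W : Type*} [AddCommGroup W] [Module k W]
    [FiniteDimensional k W] (Q : ι → Submodule k W) :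
    Module.finrank k (Submodule.pi Set.univ Q : Submodule k (ι → W))
      = ∑ i, Module.finrank k (Q i) := by
  have e : (Submodule.pi Set.univ Q : Submodule k (ι → W)) ≃ₗ[k] ((i : ι) → Q i) :=
    { toFun := fun f i => ⟨f.1 i, f.2 i (Set.mem_univ i)⟩
      map_add' := fun f g => rfl
      map_smul' := fun c f => rfl
      invFun := fun g => ⟨fun i => (g i).1, fun i _ => (g i).2⟩
      left_inv := fun f => rfl
      right_inv := fun g => rfl }
  rw [e.finrank_eq, Module.finrank_pi_fintype]

/-- inverse of the decomposition -/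
noncomputable def recomp (j : ℕ) (c : ↥(mdeg n j) → Finset (Fin n) → k) :
    Finset (Fin n) → MvPolynomial (Fin n) k :=
  fun T => ∑ a : ↥(mdeg n j), monomial (a.1 - ind T) (c a T)

lemma coeff_recomp {j : ℕ} {c : ↥(mdeg n j) → Finset (Fin n) → k}
    {T : Finset (Fin n)} (hT : ∀ a : ↥(mdeg n j), c a T ≠ 0 → ind T ≤ a.1)
    (m : Fin n →₀ ℕ) :
    coeff m (recomp j c T) = if h : m + ind T ∈ mdeg n j then c ⟨m + ind T, h⟩ T else 0 := by
  classical
  unfold recomp
  rw [coeff_sum]
  simp only [coeff_monomial]
  split_ifs with h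
  · rw [Finset.sum_eq_single (⟨m + ind T, h⟩ : ↥(mdeg n j))]
    · rw [if_pos]
      simp
    · intro a _ hne
      by_cases hc : c a T = 0
      · rw [hc]; simp
      · rw [if_neg]
        intro h'
        apply hne
        apply Subtype.ext
        simp only
        rw [← h', tsub_add_cancel_of_le (hT a hc)]
    · intro h'
      exact absurd (Finset.mem_univ _) h'
  · apply Finset.sum_eq_zero
    intro a _
    by_cases hc : c a T = 0
    · rw [hc]; simp
    · rw [if_neg]
      intro h'
      apply h
      rw [← h', tsub_add_cancel_of_le (hT a hc)]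
      exact a.2

lemma map_strand {I : Ideal (MvPolynomial (Fin n) k)} {P : Set (Fin n →₀ ℕ)} (hI : IsMon I P)
    (i j : ℕ) :
    (strand I i j).map (decomp k n j)
      = Submodule.pi Set.univ (fun a : ↥(mdeg n j) => chains k n (cx P a.1) i) := by
  ext c
  rw [Submodule.mem_map, Submodule.mem_pi]
  constructor
  · rintro ⟨f, hf, rfl⟩ a _ T hT
    rw [decomp_apply'] at hT
    split_ifs at hT with h1
    · refine ⟨⟨h1, ?_⟩, ?_⟩
      · exact (hI (f T)).mp (hf T).1 _ hT
      · by_contra h2
        apply hT
        rw [(hf T).2.1 h2, coeff_zero]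
    · exact absurd rfl hT
  · intro hc
    have hle : ∀ T, ∀ a : ↥(mdeg n j), c a T ≠ 0 → ind T ≤ a.1 := by
      intro T a h
      exact (hc a (Set.mem_univ a) T h).1.1
    refine ⟨recomp j c, ?_, ?_⟩
    · intro T
      refine ⟨?_, ?_, ?_⟩
      · rw [hI]
        intro m hm
        rw [coeff_recomp (hle T)] at hm
        split_ifs at hm with h
        · have h2 := (hc ⟨m + ind T, h⟩ (Set.mem_univ _) T hm).1.2
          rw [add_tsub_cancel_right] at h2
          exact h2
        · exact absurd rfl hm
      · intro hcard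
        ext m
        rw [coeff_recomp (hle T), coeff_zero]
        split_ifs with h
        · by_contra h3
          exact hcard (hc ⟨m + ind T, h⟩ (Set.mem_univ _) T h3).2
        · rfl
      · intro m hm
        rw [coeff_recomp (hle T)] at hm
        split_ifs at hm with h
        · have h2 := (hc ⟨m + ind T, h⟩ (Set.mem_univ _) T hm).2
          have h3 := mem_mdeg.mp h
          rw [map_add, ind_degree, h2] at h3
          exact h3
        · exact absurd rfl hm
    · funext a T
      rw [decomp_apply']
      split_ifs with h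
      · rw [coeff_recomp (hle T)]
        have h2 : a.1 - ind T + ind T = a.1 := tsub_add_cancel_of_le h
        rw [dif_pos (by rw [h2]; exact a.2)]
        exact congrFun (congrArg c (Subtype.ext h2)) T
      · by_contra h3
        exact h (hle T a (Ne.symm h3))

lemma finrank_strand {I : Ideal (MvPolynomial (Fin n) k)} {P : Set (Fin n →₀ ℕ)} (hI : IsMon I P)
    (i j : ℕ) :
    Module.finrank k (strand I i j) = ∑ a : ↥(mdeg n j), faces n (cx P a.1) i := by
  rw [← finrank_map_inj (decomp k n j) (strand I i j) (fun f hf h => decomp_inj (strand_hom hf) h),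
    map_strand hI, finrank_pi_sub]
  refine Finset.sum_congr rfl fun a _ => ?_
  rw [finrank_chains]

lemma finite_strand {I : Ideal (MvPolynomial (Fin n) k)} (i j : ℕ) :
    FiniteDimensional k (strand I i j) := by
  have h : Function.Injective ((decomp k n j).domRestrict (strand I i j)) := by
    rw [← LinearMap.ker_eq_bot, LinearMap.ker_eq_bot']
    intro x hx
    apply Subtype.ext
    exact decomp_inj (strand_hom x.2) hx
  exact Module.Finite.of_injective _ h

lemma finrank_cycles {I : Ideal (MvPolynomial (Fin n) k)} {P : Set (Fin n →₀ ℕ)} (hI : IsMon I P)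
    (i j : ℕ) :
    Module.finrank k ↥(LinearMap.ker (koszulD k n) ⊓ strand I i j)
      = ∑ a : ↥(mdeg n j), cyc k n (cx P a.1) i := by
  rw [← finrank_map_inj (decomp k n j) (LinearMap.ker (koszulD k n) ⊓ strand I i j)
    (fun f hf h => decomp_inj (strand_hom hf.2) h)]
  have : (LinearMap.ker (koszulD k n) ⊓ strand I i j).map (decomp k n j)
      = Submodule.pi Set.univ (fun a : ↥(mdeg n j) =>
        LinearMap.ker (bd k n) ⊓ chains k n (cx P a.1) i) := by
    ext c
    rw [Submodule.mem_map, Submodule.mem_pi]
    constructor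
    · rintro ⟨f, ⟨hf1, hf2⟩, rfl⟩ a _
      refine ⟨?_, ?_⟩
      · have hf1' : koszulD k n f = 0 := hf1
        have hgoal : bd k n (decomp k n j f a) = 0 := by
          rw [← decomp_koszulD, hf1', map_zero, Pi.zero_apply]
        exact hgoal
      · have h1 : decomp k n j f ∈ (strand I i j).map (decomp k n j) := ⟨f, hf2, rfl⟩
        rw [map_strand hI, Submodule.mem_pi] at h1
        exact h1 a (Set.mem_univ a)
    · intro hc
      have h1 : c ∈ (strand I i j).map (decomp k n j) := by
        rw [map_strand hI, Submodule.mem_pi]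
        exact fun a ha => (hc a ha).2
      obtain ⟨f, hf, rfl⟩ := h1
      refine ⟨f, ⟨?_, hf⟩, rfl⟩
      have hgoal : koszulD k n f = 0 := by
        apply decomp_inj (koszulD_hom (strand_hom hf))
        funext a
        rw [decomp_koszulD]
        exact LinearMap.mem_ker.mp (hc a (Set.mem_univ a)).1
      exact hgoal
  rw [this, finrank_pi_sub]
  rfl

/-- the Betti numbers of a monomial ideal in terms of cycles -/
lemma betti_formula {I : Ideal (MvPolynomial (Fin n) k)} {P : Set (Fin n →₀ ℕ)} (hI : IsMon I P)
    (i j : ℕ) (hd : ∀ f ∈ strand I (i + 1) j, koszulD k n f ∈ strand I i j) :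
    betti I i j + ∑ a : ↥(mdeg n j), faces n (cx P a.1) (i + 1)
      = ∑ a : ↥(mdeg n j), (cyc k n (cx P a.1) i + cyc k n (cx P a.1) (i + 1)) := by
  rw [Finset.sum_add_distrib, ← finrank_cycles hI, ← finrank_cycles hI, ← finrank_strand hI]
  have hfin1 : FiniteDimensional k (strand I i j) := finite_strand i j
  have hfin2 : FiniteDimensional k (strand I (i + 1) j) := finite_strand (i + 1) j
  have hfin3 : FiniteDimensional k ↥(LinearMap.ker (koszulD k n) ⊓ strand I i j) :=
    Submodule.finiteDimensional_of_le inf_le_right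
  have hle : (strand I (i + 1) j).map (koszulD k n) ≤ LinearMap.ker (koszulD k n) ⊓ strand I i j := by
    rintro _ ⟨f, hf, rfl⟩
    exact ⟨LinearMap.mem_ker.mpr (koszulD_koszulD (strand_hom hf)), hd f hf⟩
  have h1 := Submodule.finrank_quotient_add_finrank
    (((strand I (i + 1) j).map (koszulD k n)).submoduleOf
        (LinearMap.ker (koszulD k n) ⊓ strand I i j))
  have h2 : Module.finrank k ↥(((strand I (i + 1) j).map (koszulD k n)).submoduleOf
        (LinearMap.ker (koszulD k n) ⊓ strand I i j))
      = Module.finrank k ((strand I (i + 1) j).map (koszulD k n)) :=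
    (Submodule.submoduleOfEquivOfLe hle).finrank_eq
  have h3 := LinearMap.finrank_range_add_finrank_ker ((koszulD k n).domRestrict (strand I (i + 1) j))
  rw [LinearMap.range_domRestrict] at h3
  have h4 : Module.finrank k (LinearMap.ker ((koszulD k n).domRestrict (strand I (i + 1) j)))
      = Module.finrank k ↥(LinearMap.ker (koszulD k n) ⊓ strand I (i + 1) j) := by
    have h5 : (LinearMap.ker ((koszulD k n).domRestrict (strand I (i + 1) j))).map
        (strand I (i + 1) j).subtype = LinearMap.ker (koszulD k n) ⊓ strand I (i + 1) j := by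
      ext c
      simp only [Submodule.mem_map, LinearMap.mem_ker, Submodule.mem_inf]
      constructor
      · rintro ⟨x, hx, rfl⟩
        exact ⟨hx, x.2⟩
      · rintro ⟨h1, h2⟩
        exact ⟨⟨c, h2⟩, h1, rfl⟩
    rw [← h5, LinearEquiv.finrank_eq (Submodule.equivMapOfInjective _
      (Submodule.injective_subtype _) _)]
  unfold betti
  omega

lemma koszulD_strand {I : Ideal (MvPolynomial (Fin n) k)} {i j : ℕ}
    {f : Finset (Fin n) → MvPolynomial (Fin n) k} (hf : f ∈ strand I (i + 1) j) :
    koszulD k n f ∈ strand I i j := by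
  intro T
  have h1 : koszulD k n f T
      = ∑ t ∈ Tᶜ, (ksign t T : MvPolynomial (Fin n) k) * (X t * f (insert t T)) := rfl
  refine ⟨?_, ?_, ?_⟩
  · rw [h1]
    apply Ideal.sum_mem
    intro t _
    exact I.mul_mem_left _ (I.mul_mem_left _ (hf _).1)
  · intro h
    rw [h1]
    apply Finset.sum_eq_zero
    intro t ht
    rw [Finset.mem_compl] at ht
    rw [(hf _).2.1, mul_zero, mul_zero]
    rw [Finset.card_insert_of_notMem ht]
    omega
  · intro m hm
    have h2 := koszulD_hom (strand_hom hf) T m hm
    by_cases h : T.card = i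
    · rw [h] at h2; exact h2
    · exfalso
      apply hm
      rw [h1, coeff_sum]
      apply Finset.sum_eq_zero
      intro t ht
      rw [Finset.mem_compl] at ht
      rw [(hf _).2.1, mul_zero, mul_zero, coeff_zero]
      rw [Finset.card_insert_of_notMem ht]
      omega

end Multigraded

end Pool.Agent.ConeEdge
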