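import Pool.Agent.Lib.MP_01886a_al.Multi

namespace Pool.Agent.ConeEdge

open MvPolynomial

section Homotopy
variable {k : Type*} [Field k] {n : ℕ}

lemma bd_apply' (c : Finset (Fin n) → k) (T : Finset (Fin n)) :
    bd k n c T = ∑ t, if t ∈ T then 0 else (ksign t T : k) * c (insert t T) := by
  classical
  rw [bd_apply, ← Finset.sum_filter_add_sum_filter_not Finset.univ (fun t => t ∈ T)]
  rw [Finset.sum_eq_zero (s := Finset.univ.filter (fun t => t ∈ T)), zero_add]
  · have : Tᶜ = Finset.univ.filter (fun t => ¬ t ∈ T) := by
      ext x; simp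
    rw [this]
    refine Finset.sum_congr rfl fun t ht => ?_
    rw [if_neg (Finset.mem_filter.mp ht).2]
  · intro t ht
    rw [if_pos (Finset.mem_filter.mp ht).2]

/-- cone operator -/
def hop (u : Fin n) (c : Finset (Fin n) → k) : Finset (Fin n) → k :=
  fun T => if u ∈ T then c (T.erase u) else 0

/-- the full simplex -/
def full (s : Finset (Fin n)) : Set (Finset (Fin n)) := {T | T ⊆ s}

lemma hop_mem {s : Finset (Fin n)} {u : Fin n} (hu : u ∈ s) {l : ℕ} {c : Finset (Fin n) → k}
    (hc : c ∈ chains k n (full s) l) : hop u c ∈ chains k n (full s) (l + 1) := by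
  intro T hT
  unfold hop at hT
  split_ifs at hT with h
  · obtain ⟨h1, h2⟩ := hc _ hT
    refine ⟨?_, ?_⟩
    · intro x hx
      by_cases hxu : x = u
      · rw [hxu]; exact hu
      · exact h1 (Finset.mem_erase.mpr ⟨hxu, hx⟩)
    · rw [← h2, Finset.card_erase_add_one h]
  · exact absurd rfl hT

lemma ksign_min {s T : Finset (Fin n)} {u : Fin n} (hmin : ∀ x ∈ s, u ≤ x)
    (hT : T ⊆ s) : ksign u T = 1 := by
  unfold ksign
  rw [Finset.filter_eq_empty_iff.mpr, Finset.card_empty, pow_zero]
  intro x hx
  exact not_lt.mpr (hmin x (hT hx))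

lemma homotopy {s : Finset (Fin n)} {u : Fin n} (hu : u ∈ s) (hmin : ∀ x ∈ s, u ≤ x) {l : ℕ}
    {c : Finset (Fin n) → k} (hc : c ∈ chains k n (full s) l) (hbd : bd k n c = 0) :
    bd k n (hop u c) = c := by
  classical
  funext T
  rw [bd_apply]
  by_cases hT : T ⊆ s
  · by_cases huT : u ∈ T
    · -- use that (bd c)(T \ u) = 0
      have h1 := congrFun hbd (T.erase u)
      rw [bd_apply, Pi.zero_apply] at h1
      have hcomp : (T.erase u)ᶜ = insert u Tᶜ := by
        ext x
        simp only [Finset.mem_compl, Finset.mem_erase, Finset.mem_insert, not_and]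
        constructor
        · intro h
          by_cases hx : x = u
          · exact Or.inl hx
          · exact Or.inr (h hx)
        · rintro (h | h) h2
          · exact absurd h h2
          · exact h
      rw [hcomp, Finset.sum_insert (by simpa using huT)] at h1
      rw [ksign_min hmin ((Finset.erase_subset u T).trans hT), Finset.insert_erase huT] at h1
      have h2 : ∑ t ∈ Tᶜ, (ksign t T : k) * hop u c (insert t T)
          = - ∑ t ∈ Tᶜ, (ksign t (T.erase u) : k) * c (insert t (T.erase u)) := by
        rw [← Finset.sum_neg_distrib]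
        refine Finset.sum_congr rfl fun t ht => ?_
        rw [Finset.mem_compl] at ht
        have htu : t ≠ u := by
          intro h; rw [h] at ht; exact ht huT
        unfold hop
        rw [if_pos (Finset.mem_insert_of_mem huT), Finset.erase_insert_of_ne htu]
        by_cases hts : t ∈ s
        · have hlt : u < t := lt_of_le_of_ne (hmin t hts) (Ne.symm htu)
          have h3 : ksign t T = - ksign t (T.erase u) := by
            conv_lhs => rw [← Finset.insert_erase huT]
            rw [ksign_insert (Finset.notMem_erase u T), if_pos hlt]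
            ring
          rw [h3]
          push_cast
          ring
        · have h4 : c (insert t (T.erase u)) = 0 := by
            apply chains_zero_of hc
            rintro ⟨h5, _⟩
            exact hts (h5 (Finset.mem_insert_self _ _))
          rw [h4]; ring
      rw [h2]
      push_cast at h1
      rw [one_mul] at h1
      linear_combination -h1
    · rw [Finset.sum_eq_single u]
      · unfold hop
        rw [if_pos (Finset.mem_insert_self _ _), Finset.erase_insert huT, ksign_min hmin hT]
        push_cast
        ring
      · intro t _ htu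
        unfold hop
        rw [if_neg, mul_zero]
        rw [Finset.mem_insert, not_or]
        exact ⟨Ne.symm htu, huT⟩
      · intro h
        exact absurd (Finset.mem_compl.mpr huT) h
  · rw [chains_zero_of hc (fun h => hT h.1)]
    apply Finset.sum_eq_zero
    intro t _
    rw [chains_zero_of (hop_mem hu hc), mul_zero]
    rintro ⟨h, _⟩
    exact hT (fun x hx => h (Finset.mem_insert_of_mem hx))

lemma exact_full {s : Finset (Fin n)} (hs : s.Nonempty) {l : ℕ}
    {c : Finset (Fin n) → k} (hc : c ∈ chains k n (full s) l) (hbd : bd k n c = 0) :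
    ∃ w ∈ chains k n (full s) (l + 1), bd k n w = c := by
  refine ⟨hop (s.min' hs) c, hop_mem (s.min'_mem hs) hc, ?_⟩
  exact homotopy (s.min'_mem hs) (fun x hx => s.min'_le x hx) hc hbd

end Homotopy

section Split
variable (k : Type*) [Field k] {n : ℕ}

/-- lift of a subset -/
def up (T : Finset (Fin n)) : Finset (Fin (n + 1)) := T.map Fin.castSuccEmb

/-- lift of a subset, with the new vertex added -/
def upy (T : Finset (Fin n)) : Finset (Fin (n + 1)) := insert (Fin.last n) (up T)

lemma castSucc_mem_up {T : Finset (Fin n)} {x : Fin n} : Fin.castSucc x ∈ up T ↔ x ∈ T := by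
  unfold up
  rw [Finset.mem_map]
  constructor
  · rintro ⟨y, hy, h⟩
    have := Fin.castSucc_injective n h
    rwa [← this]
  · intro h
    exact ⟨x, h, rfl⟩

lemma last_notMem_up {T : Finset (Fin n)} : Fin.last n ∉ up T := by
  unfold up
  rw [Finset.mem_map]
  rintro ⟨y, hy, h⟩
  exact Fin.castSucc_ne_last y h

lemma castSucc_mem_upy {T : Finset (Fin n)} {x : Fin n} : Fin.castSucc x ∈ upy T ↔ x ∈ T := by
  unfold upy
  rw [Finset.mem_insert, castSucc_mem_up]
  constructor
  · rintro (h | h)
    · exact absurd h (Fin.castSucc_ne_last x)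
    · exact h
  · exact Or.inr

lemma last_mem_upy {T : Finset (Fin n)} : Fin.last n ∈ upy T := Finset.mem_insert_self _ _

lemma up_insert (t : Fin n) (T : Finset (Fin n)) :
    insert (Fin.castSucc t) (up T) = up (insert t T) := by
  unfold up
  rw [Finset.map_insert]
  rfl

lemma upy_insert (t : Fin n) (T : Finset (Fin n)) :
    insert (Fin.castSucc t) (upy T) = upy (insert t T) := by
  unfold upy
  rw [Finset.insert_comm, up_insert]

lemma card_up (T : Finset (Fin n)) : (up T).card = T.card := by
  unfold up
  rw [Finset.card_map]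

lemma card_upy (T : Finset (Fin n)) : (upy T).card = T.card + 1 := by
  unfold upy
  rw [Finset.card_insert_of_notMem last_notMem_up, card_up]

lemma up_injective : Function.Injective (up (n := n)) := Finset.map_injective _

/-- the trace of a subset -/
def down (S : Finset (Fin (n + 1))) : Finset (Fin n) :=
  Finset.univ.filter (fun x => Fin.castSucc x ∈ S)

lemma down_up (T : Finset (Fin n)) : down (up T) = T := by
  ext x
  unfold down
  rw [Finset.mem_filter, castSucc_mem_up]
  simp

lemma down_upy (T : Finset (Fin n)) : down (upy T) = T := by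
  ext x
  unfold down
  rw [Finset.mem_filter, castSucc_mem_upy]
  simp

lemma eq_up {S : Finset (Fin (n + 1))} (h : Fin.last n ∉ S) : S = up (down S) := by
  ext x
  refine Fin.lastCases ?_ (fun y => ?_) x
  · exact ⟨fun h' => absurd h' h, fun h' => absurd h' last_notMem_up⟩
  · rw [castSucc_mem_up]
    unfold down
    simp

lemma eq_upy {S : Finset (Fin (n + 1))} (h : Fin.last n ∈ S) : S = upy (down S) := by
  ext x
  refine Fin.lastCases ?_ (fun y => ?_) x
  · exact ⟨fun _ => last_mem_upy, fun _ => h⟩
  · rw [castSucc_mem_upy]
    unfold down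
    simp

lemma ksign_up (t : Fin n) (T : Finset (Fin n)) : ksign (Fin.castSucc t) (up T) = ksign t T := by
  unfold ksign up
  rw [Finset.filter_map, Finset.card_map]
  rfl

lemma ksign_upy (t : Fin n) (T : Finset (Fin n)) : ksign (Fin.castSucc t) (upy T) = ksign t T := by
  unfold upy
  rw [ksign_insert last_notMem_up, if_neg (not_lt.mpr (Fin.le_last _)), one_mul, ksign_up]

lemma ksign_last (T : Finset (Fin n)) : ksign (Fin.last n) (up T) = (-1) ^ T.card := by
  unfold ksign
  rw [Finset.filter_true_of_mem, card_up]
  intro x hx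
  refine lt_of_le_of_ne (Fin.le_last x) ?_
  intro h
  rw [h] at hx
  exact last_notMem_up hx

lemma bd_up (c : Finset (Fin (n + 1)) → k) (T : Finset (Fin n)) :
    bd k (n + 1) c (up T) = bd k n (fun S => c (up S)) T + (-1) ^ T.card * c (upy T) := by
  rw [bd_apply', Fin.sum_univ_castSucc, if_neg last_notMem_up, ksign_last, bd_apply']
  congr 1
  · refine Finset.sum_congr rfl fun t _ => ?_
    by_cases h : t ∈ T
    · rw [if_pos h, if_pos (castSucc_mem_up.mpr h)]
    · rw [if_neg h, if_neg (fun h' => h (castSucc_mem_up.mp h')), ksign_up, up_insert]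
  · push_cast
    rfl

lemma bd_upy (c : Finset (Fin (n + 1)) → k) (T : Finset (Fin n)) :
    bd k (n + 1) c (upy T) = bd k n (fun S => c (upy S)) T := by
  rw [bd_apply', Fin.sum_univ_castSucc, if_pos last_mem_upy, add_zero, bd_apply']
  refine Finset.sum_congr rfl fun t _ => ?_
  by_cases h : t ∈ T
  · rw [if_pos h, if_pos (castSucc_mem_upy.mpr h)]
  · rw [if_neg h, if_neg (fun h' => h (castSucc_mem_upy.mp h')), ksign_upy, upy_insert]

/-- assemble a chain from two pieces -/
def glue (u v : Finset (Fin n) → k) : Finset (Fin (n + 1)) → k :=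
  fun S => if Fin.last n ∈ S then v (down S) else u (down S)

lemma glue_up (u v : Finset (Fin n) → k) (T : Finset (Fin n)) : glue k u v (up T) = u T := by
  unfold glue
  rw [if_neg last_notMem_up, down_up]

lemma glue_upy (u v : Finset (Fin n) → k) (T : Finset (Fin n)) : glue k u v (upy T) = v T := by
  unfold glue
  rw [if_pos last_mem_upy, down_upy]

lemma ext_up_upy {c d : Finset (Fin (n + 1)) → k} (h1 : ∀ T, c (up T) = d (up T))
    (h2 : ∀ T, c (upy T) = d (upy T)) : c = d := by
  funext S
  by_cases h : Fin.last n ∈ S
  · rw [eq_upy h, h2]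
  · rw [eq_up h, h1]

/-- the projection to the `y` part -/
def prY : (Finset (Fin (n + 1)) → k) →ₗ[k] (Finset (Fin n) → k) where
  toFun c T := c (upy T)
  map_add' _ _ := rfl
  map_smul' _ _ := rfl

/-- the projection to the part without `y` -/
def prX : (Finset (Fin (n + 1)) → k) →ₗ[k] (Finset (Fin n) → k) where
  toFun c T := c (up T)
  map_add' _ _ := rfl
  map_smul' _ _ := rfl

/-- additivity of the number of cycles for a union of a complex and a cone over a subcomplex -/
lemma cyc_split {Γ : Set (Finset (Fin (n + 1)))} {D E : Set (Finset (Fin n))}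
    (hD : ∀ T, up T ∈ Γ ↔ T ∈ D) (hE : ∀ T, upy T ∈ Γ ↔ T ∈ E) (l : ℕ)
    (hex : ∀ v ∈ chains k n E l, bd k n v = 0 → ∃ u ∈ chains k n D (l + 1), bd k n u = v) :
    cyc k (n + 1) Γ (l + 1) = cyc k n D (l + 1) + cyc k n E l := by
  set A := LinearMap.ker (bd k (n + 1)) ⊓ chains k (n + 1) Γ (l + 1) with hA
  have hrank := LinearMap.finrank_range_add_finrank_ker ((prY k (n := n)).domRestrict A)
  rw [LinearMap.range_domRestrict] at hrank
  have hmemA : ∀ c, c ∈ A ↔ bd k (n + 1) c = 0 ∧ c ∈ chains k (n + 1) Γ (l + 1) := by
    intro c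
    rw [hA, Submodule.mem_inf, LinearMap.mem_ker]
  have hcx : ∀ c ∈ chains k (n + 1) Γ (l + 1), prX k c ∈ chains k n D (l + 1) := by
    intro c hc T hT
    obtain ⟨h1, h2⟩ := hc (up T) hT
    exact ⟨(hD T).mp h1, by rw [← card_up]; exact h2⟩
  have hcy : ∀ c ∈ chains k (n + 1) Γ (l + 1), prY k c ∈ chains k n E l := by
    intro c hc T hT
    obtain ⟨h1, h2⟩ := hc (upy T) hT
    refine ⟨(hE T).mp h1, ?_⟩
    rw [card_upy] at h2
    omega
  have hrange : A.map (prY k (n := n)) = LinearMap.ker (bd k n) ⊓ chains k n E l := by
    ext v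
    rw [Submodule.mem_map, Submodule.mem_inf, LinearMap.mem_ker]
    constructor
    · rintro ⟨c, hc, rfl⟩
      rw [hmemA] at hc
      refine ⟨?_, hcy c hc.2⟩
      funext T
      have := bd_upy k c T
      rw [hc.1, Pi.zero_apply] at this
      exact this.symm
    · rintro ⟨hv1, hv2⟩
      obtain ⟨u, hu1, hu2⟩ := hex v hv2 hv1
      have hsm : (-(-1) ^ l : k) • u ∈ chains k n D (l + 1) := Submodule.smul_mem _ _ hu1
      refine ⟨glue k ((-(-1) ^ l : k) • u) v, ?_, ?_⟩
      · rw [hmemA]
        refine ⟨?_, ?_⟩
        · apply ext_up_upy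
          · intro T
            rw [bd_up, glue_upy, Pi.zero_apply]
            have h1 : (fun S => glue k ((-(-1) ^ l : k) • u) v (up S)) = (-(-1) ^ l : k) • u := by
              funext S; rw [glue_up]
            rw [h1, map_smul, hu2, Pi.smul_apply, smul_eq_mul]
            by_cases hT : v T = 0
            · rw [hT]; ring
            · rw [(hv2 T hT).2]; ring
          · intro T
            rw [bd_upy, Pi.zero_apply]
            have h1 : (fun S => glue k ((-(-1) ^ l : k) • u) v (upy S)) = v := by
              funext S; rw [glue_upy]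
            rw [h1, hv1, Pi.zero_apply]
        · intro S hS
          by_cases h : Fin.last n ∈ S
          · rw [eq_upy h] at hS ⊢
            rw [glue_upy] at hS
            obtain ⟨h1, h2⟩ := hv2 _ hS
            exact ⟨(hE _).mpr h1, by rw [card_upy, h2]⟩
          · rw [eq_up h] at hS ⊢
            rw [glue_up] at hS
            obtain ⟨h1, h2⟩ := hsm _ hS
            exact ⟨(hD _).mpr h1, by rw [card_up, h2]⟩
      · funext T
        exact glue_upy k _ v T
  have hker : Module.finrank k (LinearMap.ker ((prY k (n := n)).domRestrict A))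
      = cyc k n D (l + 1) := by
    have h1 : (LinearMap.ker ((prY k (n := n)).domRestrict A)).map A.subtype
        = A ⊓ LinearMap.ker (prY k (n := n)) := by
      ext c
      simp only [Submodule.mem_map, LinearMap.mem_ker, Submodule.mem_inf]
      constructor
      · rintro ⟨x, hx, rfl⟩
        exact ⟨x.2, hx⟩
      · rintro ⟨h1, h2⟩
        exact ⟨⟨c, h1⟩, h2, rfl⟩
    rw [LinearEquiv.finrank_eq (Submodule.equivMapOfInjective _
      (Submodule.injective_subtype A) (LinearMap.ker ((prY k (n := n)).domRestrict A))), h1]
    rw [← finrank_map_inj (prX k (n := n)) (A ⊓ LinearMap.ker (prY k (n := n)))]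
    · have h2 : (A ⊓ LinearMap.ker (prY k (n := n))).map (prX k (n := n))
          = LinearMap.ker (bd k n) ⊓ chains k n D (l + 1) := by
        ext u
        rw [Submodule.mem_map, Submodule.mem_inf, LinearMap.mem_ker]
        constructor
        · rintro ⟨c, hc, rfl⟩
          rw [Submodule.mem_inf, hmemA, LinearMap.mem_ker] at hc
          obtain ⟨⟨hc1, hc2⟩, hc3⟩ := hc
          refine ⟨?_, hcx c hc2⟩
          funext T
          have h3 := bd_up k c T
          have h4 : c (upy T) = 0 := congrFun hc3 T
          rw [hc1, h4, mul_zero, add_zero, Pi.zero_apply] at h3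
          exact h3.symm
        · rintro ⟨hu1, hu2⟩
          refine ⟨glue k u 0, ?_, ?_⟩
          · rw [Submodule.mem_inf, hmemA, LinearMap.mem_ker]
            refine ⟨⟨?_, ?_⟩, ?_⟩
            · apply ext_up_upy
              · intro T
                rw [bd_up, glue_upy, Pi.zero_apply, Pi.zero_apply, mul_zero, add_zero]
                have h1 : (fun S => glue k u 0 (up S)) = u := by
                  funext S; rw [glue_up]
                rw [h1, hu1, Pi.zero_apply]
              · intro T
                rw [bd_upy, Pi.zero_apply]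
                have h1 : (fun S => glue k u 0 (upy S)) = 0 := by
                  funext S; rw [glue_upy]
                rw [h1, map_zero, Pi.zero_apply]
            · intro S hS
              by_cases h : Fin.last n ∈ S
              · rw [eq_upy h, glue_upy] at hS
                exact absurd rfl hS
              · rw [eq_up h] at hS ⊢
                rw [glue_up] at hS
                obtain ⟨h1, h2⟩ := hu2 _ hS
                exact ⟨(hD _).mpr h1, by rw [card_up, h2]⟩
            · funext T
              exact glue_upy k u 0 T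
          · funext T
            exact glue_up k u 0 T
      unfold cyc
      rw [h2]
    · intro c hc hc0
      rw [Submodule.mem_inf, LinearMap.mem_ker] at hc
      apply ext_up_upy
      · intro T
        exact congrFun hc0 T
      · intro T
        exact congrFun hc.2 T
  rw [hker, hrange] at hrank
  have h5 : cyc k (n + 1) Γ (l + 1) = Module.finrank k A := rfl
  have h6 : cyc k n E l = Module.finrank k ↥(LinearMap.ker (bd k n) ⊓ chains k n E l) := rfl
  rw [h5, h6]
  omega

end Split

end Pool.Agent.ConeEdge
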