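import Mathlib

/-! Graded Betti numbers of ideals of a polynomial ring through the Koszul complex, edge ideals of
finite simple graphs, and the cone over a graph. -/

namespace Pool.Agent.ConeBetti

open MvPolynomial

/-- The Koszul sign `(-1) ^ #{x ∈ T : x < t}`. -/
def sign {n : ℕ} (t : Fin n) (T : Finset (Fin n)) : ℤ :=
  (-1) ^ (T.filter (fun x => x < t)).card

/-- The Koszul complex `Λ(k^n) ⊗ S` of `S = k[x_1,…,x_n]` consists of the families `f` of
polynomials indexed by the subsets `T` of the variables (`f T` is the coefficient of `e_T`), with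
differential `(d f)(T) = ∑_{t ∉ T} (-1)^{#{x ∈ T : x < t}} x_t f(T ∪ {t})`. -/
noncomputable def dFun (k : Type*) [Field k] (n : ℕ)
    (f : Finset (Fin n) → MvPolynomial (Fin n) k) (T : Finset (Fin n)) : MvPolynomial (Fin n) k :=
  ∑ t ∈ Tᶜ, (sign t T : MvPolynomial (Fin n) k) * (X t * f (insert t T))

theorem dFun_add (k : Type*) [Field k] (n : ℕ)
    (f g : Finset (Fin n) → MvPolynomial (Fin n) k) :
    dFun k n (f + g) = dFun k n f + dFun k n g := by
  funext T
  simp only [dFun, Pi.add_apply, mul_add, Finset.sum_add_distrib]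

theorem dFun_smul (k : Type*) [Field k] (n : ℕ)
    (c : k) (f : Finset (Fin n) → MvPolynomial (Fin n) k) :
    dFun k n (c • f) = c • dFun k n f := by
  funext T
  simp only [dFun, Pi.smul_apply, Finset.smul_sum, mul_smul_comm]

/-- The Koszul differential. -/
noncomputable def d (k : Type*) [Field k] (n : ℕ) :
    (Finset (Fin n) → MvPolynomial (Fin n) k) →ₗ[k] (Finset (Fin n) → MvPolynomial (Fin n) k) :=
  ⟨⟨dFun k n, dFun_add k n⟩, dFun_smul k n⟩

/-- Membership in the part of homological degree `i` and internal degree `j` of the Koszul complex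
with coefficients in the ideal `I`: the family consists of elements of `I`, is supported on
`i`-element subsets, and all its monomials have degree `j - i` (it is zero when `i > j`). -/
def InStrand {k : Type*} [Field k] {n : ℕ} (I : Ideal (MvPolynomial (Fin n) k)) (i j : ℕ)
    (f : Finset (Fin n) → MvPolynomial (Fin n) k) : Prop :=
  ∀ T, f T ∈ I ∧ (T.card ≠ i → f T = 0) ∧ ∀ m : Fin n →₀ ℕ, coeff m (f T) ≠ 0 → m.degree + i = j

theorem inStrand_zero {k : Type*} [Field k] {n : ℕ} (I : Ideal (MvPolynomial (Fin n) k))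
    (i j : ℕ) : InStrand I i j 0 := by
  intro T
  rw [Pi.zero_apply]
  exact ⟨I.zero_mem, fun _ => rfl, fun m hm => absurd (coeff_zero m) hm⟩

theorem inStrand_add {k : Type*} [Field k] {n : ℕ} (I : Ideal (MvPolynomial (Fin n) k))
    (i j : ℕ) {f g : Finset (Fin n) → MvPolynomial (Fin n) k} (hf : InStrand I i j f)
    (hg : InStrand I i j g) : InStrand I i j (f + g) := by
  intro T
  rw [Pi.add_apply]
  refine ⟨I.add_mem (hf T).1 (hg T).1, fun h => ?_, fun m hm => ?_⟩
  · rw [(hf T).2.1 h, (hg T).2.1 h, add_zero]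
  · rw [coeff_add] at hm
    by_cases h : coeff m (f T) = 0
    · rw [h, zero_add] at hm
      exact (hg T).2.2 m hm
    · exact (hf T).2.2 m h

theorem inStrand_smul {k : Type*} [Field k] {n : ℕ} (I : Ideal (MvPolynomial (Fin n) k))
    (i j : ℕ) (c : k) {f : Finset (Fin n) → MvPolynomial (Fin n) k} (hf : InStrand I i j f) :
    InStrand I i j (c • f) := by
  intro T
  rw [Pi.smul_apply]
  refine ⟨?_, fun h => ?_, fun m hm => ?_⟩
  · rw [smul_eq_C_mul]
    exact I.mul_mem_left _ (hf T).1
  · rw [(hf T).2.1 h, smul_zero]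
  · rw [coeff_smul] at hm
    exact (hf T).2.2 m (right_ne_zero_of_mul hm)

/-- The part of homological degree `i` and internal degree `j` of the Koszul complex with
coefficients in the ideal `I`. -/
def strand {k : Type*} [Field k] {n : ℕ} (I : Ideal (MvPolynomial (Fin n) k)) (i j : ℕ) :
    Submodule k (Finset (Fin n) → MvPolynomial (Fin n) k) :=
  ⟨⟨⟨{f | InStrand I i j f}, inStrand_add I i j⟩, inStrand_zero I i j⟩,
    fun c _ hf => inStrand_smul I i j c hf⟩

/-- Dimension of the homology at `Z` of a linear map `φ`: the kernel of `φ` on `Z` modulo the image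
of `B` under `φ`. -/
noncomputable def homologyDim {k V : Type*} [Field k] [AddCommGroup V] [Module k V]
    (φ : V →ₗ[k] V) (Z B : Submodule k V) : ℕ :=
  Module.finrank k (↥(LinearMap.ker φ ⊓ Z) ⧸ (B.map φ).submoduleOf (LinearMap.ker φ ⊓ Z))

/-- The graded Betti number `β_{i,j}(I) = dim_k Tor_i^S(I,k)_j`, computed as the dimension of the
degree `j` part of the `i`-th Koszul homology of `I`. -/
noncomputable def betti {k : Type*} [Field k] {n : ℕ} (I : Ideal (MvPolynomial (Fin n) k))
    (i j : ℕ) : ℕ :=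
  homologyDim (d k n) (strand I i j) (strand I (i + 1) j)

/-- The edge ideal of a finite simple graph. -/
noncomputable def edgeIdeal (k : Type*) [Field k] {n : ℕ} (G : SimpleGraph (Fin n)) :
    Ideal (MvPolynomial (Fin n) k) :=
  Ideal.span {f | ∃ u v, G.Adj u v ∧ f = X u * X v}

/-- Adjacency in the cone over a graph on `Fin n`: the new vertex is `Fin.last n`, joined to all
others. -/
def ConeAdj {n : ℕ} (G : SimpleGraph (Fin n)) (u v : Fin (n + 1)) : Prop :=
  (∃ a b, G.Adj a b ∧ u = Fin.castSucc a ∧ v = Fin.castSucc b) ∨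
    (u = Fin.last n ∧ v ≠ Fin.last n) ∨ (v = Fin.last n ∧ u ≠ Fin.last n)

theorem coneAdj_symm {n : ℕ} (G : SimpleGraph (Fin n)) : Std.Symm (ConeAdj G) := by
  constructor
  rintro u v (⟨a, b, h, rfl, rfl⟩ | h | h)
  · exact Or.inl ⟨b, a, h.symm, rfl, rfl⟩
  · exact Or.inr (Or.inr h)
  · exact Or.inr (Or.inl h)

theorem coneAdj_irrefl {n : ℕ} (G : SimpleGraph (Fin n)) : Std.Irrefl (ConeAdj G) := by
  constructor
  rintro u (⟨a, b, h, rfl, h2⟩ | h | h)
  · exact h.ne (Fin.castSucc_injective n h2)
  · exact h.2 h.1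
  · exact h.2 h.1

/-- The cone over a graph on `Fin n`. -/
def cone {n : ℕ} (G : SimpleGraph (Fin n)) : SimpleGraph (Fin (n + 1)) :=
  ⟨ConeAdj G, coneAdj_symm G, coneAdj_irrefl G⟩

/-- The square of the edge ideal of the cone over `G`. -/
noncomputable def coneSq (k : Type*) [Field k] {n : ℕ} (G : SimpleGraph (Fin n)) :
    Ideal (MvPolynomial (Fin (n + 1)) k) :=
  edgeIdeal k (cone G) * edgeIdeal k (cone G)

/-- A family of ideals, one over each field, has Betti numbers that depend on the field. -/
def FieldDependent {n : ℕ} (I : ∀ (k : Type) [Field k], Ideal (MvPolynomial (Fin n) k)) : Prop :=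
  ∃ (k k' : Type) (_ : Field k) (_ : Field k') (i j : ℕ), betti (I k) i j ≠ betti (I k') i j

end Pool.Agent.ConeBetti
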